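import Pool.Agent.W823.SFD.Couple

set_option autoImplicit false

namespace Pool.Agent.W823.SFD

open MeasureTheory ProbabilityTheory Pool.Agent.W823.SFP

variable {d : ℕ} {α lam : ℝ} {μW μL : Measure ℝ}

theorem reach_subset {R : Site d → Site d → Prop} {Λ : Finset (Site d)}
    (hR : ∀ u v, R u v → u ∈ Λ ∧ v ∈ Λ) {x : Site d} (hx : x ∈ Λ) {t : ENNReal} (ω : Conf d) :
    reach α lam R x t ω ⊆ Λ := by
  intro z hz
  obtain ⟨s, -, hq⟩ := reach_induction (fun a _ => a ∈ Λ) hx
    (fun u v s _ _ _ h _ _ => (hR u v h).2) hz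
  exact hq

theorem measurableSet_reach_eq (R : Site d → Site d → Prop) (x : Site d) (t : ENNReal)
    (A : Set (Site d)) : MeasurableSet {ω : Conf d | reach α lam R x t ω = A} := by
  have : {ω : Conf d | reach α lam R x t ω = A} =
      ⋂ z : Site d, {ω : Conf d | z ∈ reach α lam R x t ω ↔ z ∈ A} := by
    ext ω
    simp only [Set.mem_ofPred_eq, Set.mem_iInter]
    exact Set.ext_iff
  rw [this]
  refine MeasurableSet.iInter fun z => ?_
  by_cases hz : z ∈ A
  · simp only [hz, iff_true]
    exact measurableSet_reach R x t z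
  · simp only [hz, iff_false]
    exact (measurableSet_reach R x t z).compl

theorem couple_bound (hlam : 0 ≤ lam) (hW : IsProbabilityMeasure μW)
    (hL : IsProbabilityMeasure μL) (hone : μW (Set.Ici 1) = 1) {T : ℝ}
    (h0 : μW (Set.Ici T) ≠ 0) (h1 : μW (Set.Iio T) ≠ 0) {R : Site d → Site d → Prop}
    {Λ : Finset (Site d)} (hR : ∀ u v, R u v → u ∈ Λ ∧ v ∈ Λ) {x : Site d} (hx : x ∈ Λ)
    {t : ENNReal} (n : ℕ) :
    law d μW μL {ω | (∀ z ∈ reach α lam R x t ω, wt ω z < T) ∧
      n < (reach α lam R x t ω).ncard} ≤ (1 - μW (Set.Ici T)) ^ n := by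
  classical
  have hpr := cl_prob (d := d) hW hL h0 h1
  have hpq : IsProbabilityMeasure (cq d μW μL T) := by unfold cq; infer_instance
  let F : Finset (Finset (Site d)) := Λ.powerset.filter fun A => n < A.card
  let E : Finset (Site d) → Set (Conf d) := fun A =>
    {ω | reach α lam R x t ω = ↑A} ∩ {ω | ∀ z ∈ A, wt ω z < T}
  have hEm : ∀ A, MeasurableSet (E A) := by
    intro A
    refine (measurableSet_reach_eq R x t _).inter ?_
    have : {ω : Conf d | ∀ z ∈ A, wt ω z < T} = ⋂ z ∈ A, {ω : Conf d | wt ω z < T} := by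
      ext ω; simp
    rw [this]
    exact MeasurableSet.biInter A.countable_toSet fun z _ =>
      measurableSet_lt (measurable_wt z) measurable_const
  have hcover : {ω : Conf d | (∀ z ∈ reach α lam R x t ω, wt ω z < T) ∧
      n < (reach α lam R x t ω).ncard} ⊆ ⋃ A ∈ F, E A := by
    rintro ω ⟨hω1, hω2⟩
    have hsub := reach_subset (α := α) (lam := lam) (t := t) hR hx ω
    have hfin : (reach α lam R x t ω).Finite := Λ.finite_toSet.subset hsub
    simp only [Set.mem_iUnion]
    refine ⟨hfin.toFinset, ?_, ?_⟩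
    · simp only [F, Finset.mem_filter, Finset.mem_powerset]
      refine ⟨fun z hz => hsub ((hfin.mem_toFinset).1 hz), ?_⟩
      rwa [Set.ncard_eq_toFinset_card _ hfin] at hω2
    · refine ⟨by simp, fun z hz => hω1 z ((hfin.mem_toFinset).1 hz)⟩
  -- almost sure properties of the coupling
  have ae1 : ∀ᵐ Y ∂(cq d μW μL T), ∀ z : Site d, T ≤ Y (Sum.inl z, 1) := by
    rw [ae_all_iff]
    intro z
    rw [ae_iff]
    have : {Y : Idx d × Fin 3 → ℝ | ¬ T ≤ Y (Sum.inl z, 1)} = {Y | Y (Sum.inl z, 1) ∈ Set.Iio T} := by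
      ext Y; simp
    rw [this, cq_eval hW hL h0 h1 _ measurableSet_Iio]
    simp only [cl, Matrix.cons_val_one, Matrix.cons_val_zero]
    rw [ProbabilityTheory.cond_apply measurableSet_Ici]
    have : Set.Ici T ∩ Set.Iio T = ∅ := by
      ext w; simp
    rw [this]
    simp
  have ae2 : ∀ᵐ Y ∂(cq d μW μL T), ∀ z : Site d, Y (Sum.inl z, 0) < T ∧ 1 ≤ Y (Sum.inl z, 0) := by
    rw [ae_all_iff]
    intro z
    rw [ae_iff]
    have : {Y : Idx d × Fin 3 → ℝ | ¬ (Y (Sum.inl z, 0) < T ∧ 1 ≤ Y (Sum.inl z, 0))} =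
        {Y | Y (Sum.inl z, 0) ∈ (Set.Iio T ∩ Set.Ici 1)ᶜ} := by
      ext Y; simp
    rw [this, cq_eval hW hL h0 h1 _ (measurableSet_Iio.inter measurableSet_Ici).compl]
    simp only [cl, Matrix.cons_val_zero]
    rw [ProbabilityTheory.cond_apply measurableSet_Iio]
    have h2 : μW (Set.Iio T ∩ (Set.Iio T ∩ Set.Ici 1)ᶜ) = 0 := by
      refine measure_mono_null (t := (Set.Ici 1)ᶜ) ?_ ((prob_compl_eq_zero_iff measurableSet_Ici).2 hone)
      rintro w ⟨hw1, hw2⟩ hw3
      exact hw2 ⟨hw1, hw3⟩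
    rw [h2, mul_zero]
  have ae3 : ∀ᵐ Y ∂(cq d μW μL T), ∀ j : Sym2 (Site d) ⊕ Sym2 (Site d), Y (Sum.inr j, 2) = 0 := by
    rw [ae_all_iff]
    intro j
    rw [ae_iff]
    have : {Y : Idx d × Fin 3 → ℝ | ¬ Y (Sum.inr j, 2) = 0} = {Y | Y (Sum.inr j, 2) ∈ ({0} : Set ℝ)ᶜ} := by
      ext Y; simp
    rw [this, cq_eval hW hL h0 h1 _ (MeasurableSet.singleton _).compl]
    simp [cl]
  let low : (Idx d × Fin 3 → ℝ) → Conf d := fun Y i => Y (i, 0)
  have hlow : Measurable low := by
    apply measurable_pi_lambda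
    intro i
    fun_prop
  let G1 : Finset (Site d) → Set (Idx d × Fin 3 → ℝ) := fun A =>
    {Y | reach α lam R x t (low Y) = ↑A}
  let G2 : Finset (Site d) → Set (Idx d × Fin 3 → ℝ) := fun A =>
    {Y | ∀ z : A, Y (Sum.inl (z : Site d), 2) ∈ ({1} : Set ℝ)ᶜ}
  have hG1m : ∀ A, MeasurableSet (G1 A) := fun A => hlow (measurableSet_reach_eq R x t _)
  have hG2m : ∀ A, MeasurableSet (G2 A) := by
    intro A
    have : G2 A = ⋂ z : A, {Y | Y (Sum.inl (z : Site d), 2) ∈ ({1} : Set ℝ)ᶜ} := by
      ext Y; simp [G2]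
    rw [this]
    refine MeasurableSet.iInter fun z => ?_
    exact (MeasurableSet.singleton _).compl.preimage (by fun_prop)
  have hle : ∀ A, law d μW μL (E A) ≤ cq d μW μL T (G1 A) * (1 - μW (Set.Ici T)) ^ A.card := by
    intro A
    rw [← cq_map hW hL h0 h1, Measure.map_apply measurable_Phi (hEm A)]
    have hae : (Phi ⁻¹' E A : Set (Idx d × Fin 3 → ℝ)) ≤ᵐ[cq d μW μL T] (G1 A ∩ G2 A : Set _) := by
      filter_upwards [ae1, ae2, ae3] with Y hY1 hY2 hY3 hY
      obtain ⟨hYa, hYb⟩ := hY
      change reach α lam R x t (Phi Y) = ↑A at hYa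
      have hpair : ∀ j, Phi Y (Sum.inr j) = low Y (Sum.inr j) := by
        intro j
        simp only [Phi, phi, hY3 j, low]
        simp
      have hnot : ∀ z ∈ A, Y (Sum.inl z, 2) ≠ 1 := by
        intro z hz h
        have h3 := hYb z hz
        simp only [wt, Phi, phi, h, if_true] at h3
        exact absurd (hY1 z) (not_le.2 h3)
      have hwt : ∀ z ∈ A, wt (low Y) z = wt (Phi Y) z := by
        intro z hz
        simp only [wt, Phi, phi, low, if_neg (hnot z hz)]
      have hwt2 : ∀ z, wt (low Y) z ≤ wt (Phi Y) z := by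
        intro z
        simp only [wt, Phi, phi, low]
        split_ifs
        · exact (hY2 z).1.le.trans (hY1 z)
        · exact le_rfl
      refine ⟨?_, fun z => hnot z z.2⟩
      change reach α lam R x t (low Y) = ↑A
      rw [← hYa]
      refine reach_eq hlam ?_ hwt2 ?_ ?_ ?_
      · intro z hz
        rw [hYa] at hz
        exact hwt z hz
      · intro z
        exact zero_le_one.trans (hY2 z).2
      · intro u v; exact (hpair _).symm
      · intro u v; exact (hpair _).symm
    refine (measure_mono_ae hae).trans ?_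
    have hi := indep_coord (fun p : Idx d × Fin 3 => cl d μW μL T p.1 p.2)
      {p : Idx d × Fin 3 | p.2 = 0} (hG1m A) (hG2m A)
      (by
        intro Y Y' hYY hY
        change reach α lam R x t (low Y') = ↑A
        have : low Y' = low Y := by
          funext i
          exact (hYY (i, 0) rfl).symm
        rw [this]; exact hY)
      (by
        intro Y Y' hYY hY z
        rw [← hYY (Sum.inl (z : Site d), 2) (by simp)]
        exact hY z)
    change (Measure.infinitePi fun p : Idx d × Fin 3 => cl d μW μL T p.1 p.2) (G1 A ∩ G2 A) ≤ _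
    rw [hi]
    refine mul_le_mul' le_rfl ?_
    · apply le_of_eq
      have := cyl_prob (fun p : Idx d × Fin 3 => cl d μW μL T p.1 p.2)
        (ι := A) (fun z => (Sum.inl (z : Site d), 2)) (by
          intro z z' h
          have h1 : (Sum.inl (z : Site d) : Idx d) = Sum.inl (z' : Site d) := congrArg Prod.fst h
          exact Subtype.ext (Sum.inl_injective h1)) (fun _ => ({1} : Set ℝ)ᶜ)
        (fun _ => (MeasurableSet.singleton _).compl)
      change (Measure.infinitePi fun p : Idx d × Fin 3 => cl d μW μL T p.1 p.2)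
        {Y | ∀ z : A, Y (Sum.inl (z : Site d), 2) ∈ ({1} : Set ℝ)ᶜ} = _
      rw [this]
      have hc : ∀ z : A, cl d μW μL T (Sum.inl (z : Site d)) 2 ({1} : Set ℝ)ᶜ = 1 - μW (Set.Ici T) := by
        intro z
        simp only [cl]
        exact xiLaw_compl _
      simp only [hc, Finset.prod_const, Finset.card_univ, Fintype.card_coe]
  calc law d μW μL {ω | (∀ z ∈ reach α lam R x t ω, wt ω z < T) ∧
      n < (reach α lam R x t ω).ncard}
      ≤ law d μW μL (⋃ A ∈ F, E A) := measure_mono hcover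
    _ ≤ ∑ A ∈ F, law d μW μL (E A) := measure_biUnion_finset_le _ _
    _ ≤ ∑ A ∈ F, cq d μW μL T (G1 A) * (1 - μW (Set.Ici T)) ^ n := by
        apply Finset.sum_le_sum
        intro A hA
        refine (hle A).trans (mul_le_mul' le_rfl ?_)
        exact pow_le_pow_right_of_le_one' tsub_le_self (Finset.mem_filter.1 hA).2.le
    _ = (∑ A ∈ F, cq d μW μL T (G1 A)) * (1 - μW (Set.Ici T)) ^ n := by rw [Finset.sum_mul]
    _ ≤ 1 * (1 - μW (Set.Ici T)) ^ n := by
        gcongr
        rw [← measure_biUnion_finset _ fun A _ => hG1m A]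
        · exact prob_le_one
        · intro A _ B _ hAB
          rw [Function.onFun, Set.disjoint_left]
          intro Y h1 h2
          apply hAB
          have h3 : (↑A : Set (Site d)) = ↑B := h1.symm.trans h2
          exact_mod_cast h3
    _ = _ := one_mul _

end Pool.Agent.W823.SFD
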