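import Mathlib

set_option autoImplicit false

namespace Pool.Agent.W823.SFD

open MeasureTheory ProbabilityTheory

/-- Two events depending on disjoint sets of coordinates of a product measure are independent. -/
theorem indep_coord {I : Type*} (P : I → Measure ℝ) [∀ i, IsProbabilityMeasure (P i)]
    (S : Set I) {E F : Set (I → ℝ)} (hE : MeasurableSet E) (hF : MeasurableSet F)
    (hES : ∀ ω ω' : I → ℝ, (∀ i ∈ S, ω i = ω' i) → ω ∈ E → ω' ∈ E)
    (hFS : ∀ ω ω' : I → ℝ, (∀ i ∉ S, ω i = ω' i) → ω ∈ F → ω' ∈ F) :
    Measure.infinitePi P (E ∩ F) = Measure.infinitePi P E * Measure.infinitePi P F := by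
  classical
  have hind : iIndep (fun i : I => MeasurableSpace.comap (fun ω : I → ℝ => ω i) inferInstance)
      (Measure.infinitePi P) :=
    iIndepFun_infinitePi (X := fun _ x => x) (by fun_prop)
  have hle : ∀ i : I, MeasurableSpace.comap (fun ω : I → ℝ => ω i) inferInstance ≤
      (inferInstance : MeasurableSpace (I → ℝ)) := fun i => (measurable_pi_apply i).comap_le
  have h := indep_iSup_of_disjoint hle hind (disjoint_compl_right (a := S))
  rw [Indep_iff] at h
  have key : ∀ (S : Set I) (E : Set (I → ℝ)), MeasurableSet E →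
      (∀ ω ω' : I → ℝ, (∀ i ∈ S, ω i = ω' i) → ω ∈ E → ω' ∈ E) →
      MeasurableSet[⨆ i ∈ S, MeasurableSpace.comap (fun ω : I → ℝ => ω i) inferInstance] E := by
    intro S E hE hES
    let g : (I → ℝ) → (I → ℝ) := fun ω i => if i ∈ S then ω i else 0
    have hg : Measurable[⨆ i ∈ S, MeasurableSpace.comap (fun ω : I → ℝ => ω i) inferInstance] g := by
      refine @measurable_pi_lambda (I → ℝ) I (fun _ => ℝ)
        (⨆ i ∈ S, MeasurableSpace.comap (fun ω : I → ℝ => ω i) inferInstance) _ g fun i => ?_
      by_cases hi : i ∈ S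
      · have : (fun ω : I → ℝ => g ω i) = fun ω => ω i := by funext ω; simp [g, hi]
        rw [this]
        apply Measurable.mono (comap_measurable _) _ le_rfl
        exact le_iSup₂_of_le i hi le_rfl
      · have : (fun ω : I → ℝ => g ω i) = fun ω => 0 := by funext ω; simp [g, hi]
        rw [this]
        exact measurable_const
    have : E = g ⁻¹' E := by
      ext ω
      constructor
      · intro h
        exact hES ω (g ω) (fun i hi => by simp [g, hi]) h
      · intro h
        exact hES (g ω) ω (fun i hi => by simp [g, hi]) h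
    rw [this]
    exact hg hE
  exact h E F (key S E hE hES) (key Sᶜ F hF hFS)

end Pool.Agent.W823.SFD
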