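import Pool.Agent.W823.SFD.Model
import Pool.Agent.W823.SFD.Indep

set_option autoImplicit false

namespace Pool.Agent.W823.SFD

open MeasureTheory ProbabilityTheory Pool.Agent.W823.SFP

variable {d : ℕ} {α lam : ℝ} {μW μL : Measure ℝ}

theorem prob_marg (hW : IsProbabilityMeasure μW) (hL : IsProbabilityMeasure μL) :
    ∀ i, IsProbabilityMeasure (marg (d := d) μW μL i) := by
  rintro (i | i | i)
  · exact hW
  · constructor
    simp [marg]
  · exact hL

/-- The law of the indicator. -/
noncomputable def xiLaw (q : ENNReal) : Measure ℝ :=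
  (1 - q) • Measure.dirac 0 + q • Measure.dirac 1

theorem xiLaw_one (q : ENNReal) : xiLaw q {1} = q := by
  unfold xiLaw
  simp

theorem xiLaw_compl (q : ENNReal) : xiLaw q {1}ᶜ = 1 - q := by
  unfold xiLaw
  simp

theorem xiLaw_prob {q : ENNReal} (hq : q ≤ 1) : IsProbabilityMeasure (xiLaw q) := by
  constructor
  unfold xiLaw
  simp
  exact tsub_add_cancel_of_le hq

/-- The laws of the coupling. -/
noncomputable def cl (d : ℕ) (μW μL : Measure ℝ) (T : ℝ) : Idx d → Fin 3 → Measure ℝ
  | Sum.inl _ => ![ProbabilityTheory.cond μW (Set.Iio T), ProbabilityTheory.cond μW (Set.Ici T),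
      xiLaw (μW (Set.Ici T))]
  | Sum.inr j => ![marg μW μL (Sum.inr j), marg μW μL (Sum.inr j), Measure.dirac 0]

theorem cl_prob (hW : IsProbabilityMeasure μW) (hL : IsProbabilityMeasure μL) {T : ℝ}
    (h0 : μW (Set.Ici T) ≠ 0) (h1 : μW (Set.Iio T) ≠ 0) (i : Idx d) (k : Fin 3) :
    IsProbabilityMeasure (cl d μW μL T i k) := by
  have hm := prob_marg (d := d) hW hL
  rcases i with i | i
  · fin_cases k
    · exact cond_isProbabilityMeasure h1
    · exact cond_isProbabilityMeasure h0
    · exact xiLaw_prob prob_le_one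
  · fin_cases k
    · exact hm (Sum.inr i)
    · exact hm (Sum.inr i)
    · exact Measure.dirac.isProbabilityMeasure

/-- The map producing the true variable. -/
noncomputable def phi (y : Fin 3 → ℝ) : ℝ := if y 2 = 1 then y 1 else y 0

theorem measurable_phi : Measurable phi := by
  unfold phi
  exact Measurable.ite (measurableSet_eq_fun (measurable_pi_apply _) measurable_const)
    (measurable_pi_apply _) (measurable_pi_apply _)

theorem map_phi (m : Fin 3 → Measure ℝ) [∀ k, IsProbabilityMeasure (m k)] {B : Set ℝ}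
    (hB : MeasurableSet B) :
    (Measure.infinitePi m).map phi B = m 2 {1} * m 1 B + m 2 {1}ᶜ * m 0 B := by
  rw [Measure.map_apply measurable_phi hB, Measure.infinitePi_eq_pi]
  have hset : phi ⁻¹' B = Set.pi Set.univ ![Set.univ, B, {1}] ∪ Set.pi Set.univ ![B, Set.univ, {1}ᶜ] := by
    ext y
    simp only [Set.mem_preimage, phi, Set.mem_union, Set.mem_pi, Set.mem_univ, true_implies,
      Fin.forall_fin_succ]
    by_cases h : y 2 = 1
    · simp [h]
    · simp [h]
  rw [hset, measure_union]
  · rw [Measure.pi_pi, Measure.pi_pi, Fin.prod_univ_three, Fin.prod_univ_three]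
    simp
    ring
  · rw [Set.disjoint_left]
    intro y h1 h2
    have h3 := h1 2 (Set.mem_univ _)
    have h4 := h2 2 (Set.mem_univ _)
    simp at h3 h4
    exact h4 h3
  · apply MeasurableSet.univ_pi
    intro k
    fin_cases k
    · exact hB
    · exact MeasurableSet.univ
    · exact (MeasurableSet.singleton _).compl

theorem cl_map (hW : IsProbabilityMeasure μW) (hL : IsProbabilityMeasure μL) {T : ℝ}
    (h0 : μW (Set.Ici T) ≠ 0) (h1 : μW (Set.Iio T) ≠ 0) (i : Idx d) :
    (Measure.infinitePi (cl d μW μL T i)).map phi = marg μW μL i := by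
  have := cl_prob (d := d) hW hL h0 h1
  ext B hB
  rw [map_phi _ hB]
  rcases i with i | i
  · simp only [cl, Matrix.cons_val_zero, Matrix.cons_val_one, Matrix.cons_val]
    rw [xiLaw_one, xiLaw_compl, ProbabilityTheory.cond_apply measurableSet_Iio,
      ProbabilityTheory.cond_apply measurableSet_Ici]
    have hc : 1 - μW (Set.Ici T) = μW (Set.Iio T) := by
      rw [← prob_compl_eq_one_sub measurableSet_Ici, Set.compl_Ici]
    rw [hc, ← mul_assoc, ← mul_assoc, ENNReal.mul_inv_cancel h0 (measure_ne_top _ _),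
      ENNReal.mul_inv_cancel h1 (measure_ne_top _ _), one_mul, one_mul]
    change _ = μW B
    rw [← measure_inter_add_sdiff B (measurableSet_Ici (a := T)), Set.inter_comm B]
    congr 2
    ext x
    simp [and_comm]
  · simp only [cl, Matrix.cons_val_zero, Matrix.cons_val_one, Matrix.cons_val]
    simp

/-- The product space of the coupling. -/
noncomputable def cq (d : ℕ) (μW μL : Measure ℝ) (T : ℝ) : Measure (Idx d × Fin 3 → ℝ) :=
  Measure.infinitePi fun p : Idx d × Fin 3 => cl d μW μL T p.1 p.2

noncomputable def Phi (Y : Idx d × Fin 3 → ℝ) : Conf d := fun i => phi fun k => Y (i, k)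

theorem measurable_Phi : Measurable (Phi (d := d)) := by
  unfold Phi
  apply measurable_pi_lambda
  intro i
  exact measurable_phi.comp (by fun_prop)

theorem cq_map (hW : IsProbabilityMeasure μW) (hL : IsProbabilityMeasure μL) {T : ℝ}
    (h0 : μW (Set.Ici T) ≠ 0) (h1 : μW (Set.Iio T) ≠ 0) :
    (cq d μW μL T).map Phi = law d μW μL := by
  have := cl_prob (d := d) hW hL h0 h1
  have e1 : (Phi (d := d)) = (fun f : Idx d → Fin 3 → ℝ => fun i => phi (f i)) ∘
      (MeasurableEquiv.curry (Idx d) (Fin 3) ℝ) := rfl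
  have e2 := Measure.infinitePi_map_curry (ι := Idx d) (κ := Fin 3) (cl d μW μL T)
  have hm : Measurable (fun f : Idx d → Fin 3 → ℝ => fun i => phi (f i)) := by
    apply measurable_pi_lambda
    intro i
    exact measurable_phi.comp (measurable_pi_apply _)
  rw [e1, ← Measure.map_map hm (by fun_prop)]
  unfold cq
  rw [e2, Measure.infinitePi_map_pi _ (f := fun _ => phi) (fun _ => measurable_phi)]
  unfold law
  congr 1
  funext i
  exact cl_map hW hL h0 h1 i

theorem cq_eval (hW : IsProbabilityMeasure μW) (hL : IsProbabilityMeasure μL) {T : ℝ}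
    (h0 : μW (Set.Ici T) ≠ 0) (h1 : μW (Set.Iio T) ≠ 0) (p : Idx d × Fin 3) {B : Set ℝ}
    (hB : MeasurableSet B) : cq d μW μL T {Y | Y p ∈ B} = cl d μW μL T p.1 p.2 B := by
  have := cl_prob (d := d) hW hL h0 h1
  have e := Measure.infinitePi_map_eval (fun p : Idx d × Fin 3 => cl d μW μL T p.1 p.2) p
  rw [← e, Measure.map_apply (by fun_prop) hB]
  rfl

end Pool.Agent.W823.SFD
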