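import Pool.Agent.W823.SFP.Defs

/-!
# Scale-free percolation: weighted distances and explosion times
-/

set_option autoImplicit false

namespace Pool.Agent.W823.SFD

open MeasureTheory ProbabilityTheory Pool.Agent.W823.SFP

/-- The weighted distance `d_L (x, y)`: the infimum, over all finite sequences
`x = v 0, v 1, …, v n = y` in which consecutive vertices are joined, of the sum of the
edge-weights. -/
noncomputable def dL {d : ℕ} (α lam : ℝ) (ω : Conf d) (x y : Site d) : ENNReal :=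
  ⨅ (n : ℕ) (v : Fin (n + 1) → Site d) (_ : v 0 = x) (_ : v (Fin.last n) = y)
    (_ : ∀ i : Fin n, Joined α lam ω (v i.castSucc) (v i.succ)),
    ∑ i : Fin n, ENNReal.ofReal (cost ω (v i.castSucc) (v i.succ))

/-- The ball `B_t (x) = {y : d_L (x, y) ≤ t}`. -/
def ball {d : ℕ} (α lam : ℝ) (ω : Conf d) (x : Site d) (t : ENNReal) : Set (Site d) :=
  {y | dL α lam ω x y ≤ t}

/-- `τ_n (x)`: the infimum of the times `t` at which the ball `B_t (x)` has at least `n`
vertices. -/
noncomputable def tau {d : ℕ} (α lam : ℝ) (ω : Conf d) (x : Site d) (n : ℕ) : ENNReal :=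
  sInf {t : ENNReal | (n : ℕ∞) ≤ (ball α lam ω x t).encard}

/-- The explosion time `V_x`, the supremum (which is the limit) of the nondecreasing sequence
`τ_n (x)`. -/
noncomputable def expl {d : ℕ} (α lam : ℝ) (ω : Conf d) (x : Site d) : ENNReal :=
  ⨆ n : ℕ, tau α lam ω x n

/-- `I (L) = ∫_0^∞ F_L^{(-1)} (exp (- e ^ y)) dy`, with values in `[0, ∞]`. -/
noncomputable def IL (μL : Measure ℝ) : ENNReal :=
  ∫⁻ y in Set.Ioi (0 : ℝ), ENNReal.ofReal (quantile μL (Real.exp (-Real.exp y)))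

/-- `P (W > t) = ℓ (t) t ^ (-β)` with `ℓ` slowly varying at infinity. -/
def RegVar (μW : Measure ℝ) (β : ℝ) : Prop :=
  ∃ l : ℝ → ℝ, (∀ t : ℝ, 0 < t → (μW (Set.Ioi t)).toReal = l t * t ^ (-β)) ∧
    (∀ᶠ t in Filter.atTop, 0 < l t) ∧
    ∀ c : ℝ, 0 < c → Filter.Tendsto (fun t => l (c * t) / l t) Filter.atTop (nhds 1)

end Pool.Agent.W823.SFD
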