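import Mathlib

set_option autoImplicit false

namespace Pool.Agent.W823.SFD

open MeasureTheory

variable {A : Type*}

/-- The distance for the weights `e`: the infimum of the sums of weights over finite sequences. -/
noncomputable def pd (e : A → A → ENNReal) (x z : A) : ENNReal :=
  ⨅ (n : ℕ) (v : Fin (n + 1) → A) (_ : v 0 = x ∧ v (Fin.last n) = z),
    ∑ i : Fin n, e (v i.castSucc) (v i.succ)

theorem pd_self (e : A → A → ENNReal) (x : A) : pd e x x = 0 := by
  apply le_antisymm _ zero_le
  refine (iInf_le _ 0).trans ((iInf_le _ fun _ => x).trans ((iInf_le _ ⟨rfl, rfl⟩).trans ?_))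
  simp

theorem pd_le_path (e : A → A → ENNReal) {n : ℕ} (v : Fin (n + 1) → A) :
    pd e (v 0) (v (Fin.last n)) ≤ ∑ i : Fin n, e (v i.castSucc) (v i.succ) :=
  (iInf_le _ n).trans ((iInf_le _ v).trans (iInf_le _ ⟨rfl, rfl⟩))

theorem exists_path {e : A → A → ENNReal} {x z : A} {t : ENNReal} (h : pd e x z < t) :
    ∃ (n : ℕ) (v : Fin (n + 1) → A), v 0 = x ∧ v (Fin.last n) = z ∧
      ∑ i : Fin n, e (v i.castSucc) (v i.succ) < t := by
  unfold pd at h
  simp only [iInf_lt_iff] at h
  obtain ⟨n, v, ⟨h1, h2⟩, h3⟩ := h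
  exact ⟨n, v, h1, h2, h3⟩

theorem pd_step (e : A → A → ENNReal) (x y z : A) : pd e x z ≤ pd e x y + e y z := by
  rw [pd, pd]
  simp only [ENNReal.iInf_add]
  refine le_iInf fun n => le_iInf fun v => le_iInf fun hv => ?_
  have ha : (Fin.snoc v z : Fin (n + 1 + 1) → A) 0 = x := by
    rw [show (0 : Fin (n + 1 + 1)) = Fin.castSucc 0 from rfl, Fin.snoc_castSucc]
    exact hv.1
  have hb : (Fin.snoc v z : Fin (n + 1 + 1) → A) (Fin.last (n + 1)) = z := by
    rw [Fin.snoc_last]
  refine (iInf_le _ (n + 1)).trans ((iInf_le _ (Fin.snoc v z)).trans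
    ((iInf_le _ ⟨ha, hb⟩).trans ?_))
  · rw [Fin.sum_univ_castSucc]
    have h1 : ∀ i : Fin n, e ((Fin.snoc v z : Fin (n + 1 + 1) → A) i.castSucc.castSucc)
        ((Fin.snoc v z : Fin (n + 1 + 1) → A) i.castSucc.succ) = e (v i.castSucc) (v i.succ) := by
      intro i
      rw [Fin.snoc_castSucc, Fin.succ_castSucc, Fin.snoc_castSucc]
    rw [Finset.sum_congr rfl fun i _ => h1 i, Fin.succ_last, Fin.snoc_last, Fin.snoc_castSucc, hv.2]

/-- Induction along a path. -/
theorem path_induction {e : A → A → ENNReal} {n : ℕ} (v : Fin (n + 1) → A) {t : ENNReal}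
    (ht : ∑ i : Fin n, e (v i.castSucc) (v i.succ) < t) (Q : A → ENNReal → Prop)
    (h0 : Q (v 0) 0)
    (hs : ∀ (i : Fin n) (s : ENNReal), Q (v i.castSucc) s → s + e (v i.castSucc) (v i.succ) < t →
      Q (v i.succ) (s + e (v i.castSucc) (v i.succ))) :
    ∀ i : Fin (n + 1), ∃ s, s < t ∧ Q (v i) s := by
  -- the partial sums
  have key : ∀ k : ℕ, ∀ hk : k < n + 1,
      Q (v ⟨k, hk⟩) (∑ i ∈ (Finset.univ : Finset (Fin n)).filter (fun i : Fin n => (i : ℕ) < k),
        e (v i.castSucc) (v i.succ)) := by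
    intro k
    induction k with
    | zero => intro hk; simpa using h0
    | succ k ih =>
      intro hk
      have hk' : k < n := by omega
      have h1 := ih (by omega)
      have hsplit : (Finset.univ : Finset (Fin n)).filter (fun i : Fin n => (i : ℕ) < k + 1) =
          insert ⟨k, hk'⟩ ((Finset.univ : Finset (Fin n)).filter (fun i : Fin n => (i : ℕ) < k)) := by
        ext i
        simp only [Finset.mem_filter, Finset.mem_univ, true_and, Finset.mem_insert, Fin.ext_iff]
        omega
      have hni : (⟨k, hk'⟩ : Fin n) ∉ (Finset.univ : Finset (Fin n)).filter (fun i : Fin n => (i : ℕ) < k) := by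
        simp
      have e1 : ∑ i ∈ (Finset.univ : Finset (Fin n)).filter (fun i : Fin n => (i : ℕ) < k + 1),
          e (v i.castSucc) (v i.succ) =
          ∑ i ∈ (Finset.univ : Finset (Fin n)).filter (fun i : Fin n => (i : ℕ) < k),
          e (v i.castSucc) (v i.succ) + e (v (⟨k, hk'⟩ : Fin n).castSucc) (v (⟨k, hk'⟩ : Fin n).succ) := by
        rw [hsplit, Finset.sum_insert hni]
        exact add_comm _ _
      rw [e1]
      refine hs ⟨k, hk'⟩ _ h1 ?_
      refine lt_of_le_of_lt ?_ ht
      rw [← e1]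
      exact Finset.sum_le_sum_of_subset (Finset.subset_univ _)
  intro i
  refine ⟨_, ?_, key i.1 i.2⟩
  exact lt_of_le_of_lt (Finset.sum_le_sum_of_subset (Finset.subset_univ _)) ht

theorem pd_mono {e e' : A → A → ENNReal} (h : ∀ x y, e x y ≤ e' x y) (x z : A) :
    pd e x z ≤ pd e' x z := by
  unfold pd
  exact iInf_mono fun n => iInf_mono fun v => iInf_mono fun _ => Finset.sum_le_sum fun i _ => h _ _

/-- Triangle inequality. -/
theorem pd_triangle (e : A → A → ENNReal) (x y z : A) : pd e x z ≤ pd e x y + pd e y z := by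
  by_contra hcon
  push Not at hcon
  have hxy : pd e x y ≠ ⊤ := by
    rintro h
    rw [h, top_add] at hcon
    exact not_top_lt hcon
  have h1 : pd e y z < pd e x z - pd e x y := by
    rwa [lt_tsub_iff_left]
  obtain ⟨n, v, h0, hl, hsum⟩ := exists_path h1
  have := path_induction v hsum (fun a s => pd e x a ≤ pd e x y + s) (by simp [h0]) (by
    intro i s hs _
    refine (pd_step e x (v i.castSucc) (v i.succ)).trans ?_
    rw [← add_assoc]
    gcongr) (Fin.last n)
  obtain ⟨s, hs, hq⟩ := this
  rw [hl] at hq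
  have h2 : pd e x y + s < pd e x z := by
    exact lt_tsub_iff_left.1 hs
  exact absurd hq (not_le.2 h2)

/-- Symmetry. -/
theorem pd_symm {e : A → A → ENNReal} (he : ∀ a b, e a b = e b a) (x y : A) :
    pd e x y = pd e y x := by
  have key : ∀ x y : A, pd e x y ≤ pd e y x := by
    intro x y
    unfold pd
    refine le_iInf fun n => le_iInf fun v => le_iInf fun hv => ?_
    have ha : (v ∘ Fin.rev) 0 = x := by simp [hv.2]
    have hb : (v ∘ Fin.rev) (Fin.last n) = y := by simp [hv.1]
    refine (iInf_le _ n).trans ((iInf_le _ (v ∘ Fin.rev)).trans ((iInf_le _ ⟨ha, hb⟩).trans ?_))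
    · apply le_of_eq
      rw [← Equiv.sum_comp (Fin.revPerm (n := n))]
      apply Finset.sum_congr rfl
      intro i _
      simp only [Function.comp, Fin.revPerm_apply, Fin.rev_castSucc, Fin.rev_succ, Fin.rev_rev]
      exact he _ _
  exact le_antisymm (key x y) (key y x)

theorem measurable_pd {Ω : Type*} [MeasurableSpace Ω] [Countable A] {e : Ω → A → A → ENNReal}
    (he : ∀ x y, Measurable fun ω => e ω x y) (x z : A) : Measurable fun ω => pd (e ω) x z := by
  unfold pd
  refine Measurable.iInf fun n => Measurable.iInf fun v => Measurable.iInf fun _ => ?_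
  exact Finset.measurable_sum _ fun i _ => he _ _

end Pool.Agent.W823.SFD
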