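import Pool.Agent.W823.SFD.Bound1

set_option autoImplicit false

namespace Pool.Agent.W823.SFD

open MeasureTheory ProbabilityTheory Pool.Agent.W823.SFP

variable {d : ℕ} {α lam : ℝ} {μW μL : Measure ℝ}

/-- Pairs inside `Λ`. -/
def RL (Λ : Finset (Site d)) (u v : Site d) : Prop := u ∈ Λ ∧ v ∈ Λ

/-- Pairs inside `Λ` at distance less than `r`. -/
def RS (Λ : Finset (Site d)) (r : ℝ) (u v : Site d) : Prop := u ∈ Λ ∧ v ∈ Λ ∧ nrm (u - v) < r

theorem nrm_zero : nrm (0 : Site d) = 0 := by simp [nrm]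

theorem diam {Λ : Finset (Site d)} {x : Site d} {r : ℝ} {t : ENNReal} {ω : Conf d} (hr : 0 < r)
    (hx : x ∈ Λ) (ht : 0 < t) {n : ℕ} (hn : (reach α lam (RS Λ r) x t ω).ncard ≤ n) {z : Site d}
    (hz : z ∈ reach α lam (RS Λ r) x t ω) : nrm (z - x) ≤ n * r := by
  by_contra hcon
  push Not at hcon
  have hfin : (reach α lam (RS Λ r) x t ω).Finite :=
    Λ.finite_toSet.subset (reach_subset (fun u v h => ⟨h.1, h.2.1⟩) hx ω)
  obtain ⟨s, -, hq⟩ := reach_induction (fun a _ => ∀ k : ℕ, k * r ≤ nrm (a - x) →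
      ∃ w ∈ reach α lam (RS Λ r) x t ω, k * r ≤ nrm (w - x) ∧ nrm (w - x) < (k + 1) * r)
    (by
      intro k hk
      refine ⟨x, self_mem_reach ht, hk, ?_⟩
      rw [sub_self, nrm_zero] at hk ⊢
      positivity)
    (by
      intro u v s hu hv _ hR hQ _ k hk
      by_cases h : k * r ≤ nrm (u - x)
      · exact hQ k h
      · push Not at h
        refine ⟨v, hv, hk, ?_⟩
        have h1 := nrm_add_le (v - u) (u - x)
        rw [sub_add_sub_cancel] at h1
        have h2 := hR.2.2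
        rw [nrm_sub_comm] at h2
        linarith) hz
  have hsel : ∀ k : Fin (n + 1), ∃ w ∈ reach α lam (RS Λ r) x t ω,
      (k : ℕ) * r ≤ nrm (w - x) ∧ nrm (w - x) < ((k : ℕ) + 1) * r := by
    intro k
    apply hq
    have : ((k : ℕ) : ℝ) ≤ n := by exact_mod_cast Nat.lt_succ_iff.1 k.2
    nlinarith
  choose w hw1 hw2 hw3 using hsel
  have hinj : Function.Injective w := by
    intro i j hij
    by_contra hne
    rcases lt_or_gt_of_ne hne with h | h
    · have h1 : ((i : ℕ) : ℝ) + 1 ≤ (j : ℕ) := by exact_mod_cast h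
      have h2 := hw3 i
      have h3 := hw2 j
      rw [hij] at h2
      nlinarith
    · have h1 : ((j : ℕ) : ℝ) + 1 ≤ (i : ℕ) := by exact_mod_cast h
      have h2 := hw3 j
      have h3 := hw2 i
      rw [← hij] at h2
      nlinarith
  have hcard : n + 1 ≤ (reach α lam (RS Λ r) x t ω).ncard := by
    have h1 : (Set.range w).ncard = n + 1 := by
      rw [← Set.image_univ, Set.ncard_image_of_injective _ hinj, Set.ncard_univ, Nat.card_fin]
    rw [← h1]
    apply Set.ncard_le_ncard _ hfin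
    rintro _ ⟨k, rfl⟩
    exact hw1 k
  omega

theorem escape {Λ : Finset (Site d)} {x : Site d} {r ρ T : ℝ} {t : ENNReal} {ω : Conf d}
    (hr : 0 < r) (hx : x ∈ Λ) (ht : 0 < t) {n : ℕ} (hρ : (n + 1) * r ≤ ρ)
    (hΛ : ∀ z, z ∉ Λ → ρ < nrm (z - x))
    (hinf : (reach α lam (fun _ _ => True) x t ω).Infinite)
    (hlow : ∀ z ∈ reach α lam (RL Λ) x t ω, wt ω z < T)
    (hcard : (reach α lam (RL Λ) x t ω).ncard ≤ n) :
    (reach α lam (RS Λ r) x t ω).ncard ≤ n ∧
    ∃ u ∈ reach α lam (RS Λ r) x t ω, ∃ v, Joined α lam ω u v ∧ r ≤ nrm (u - v) ∧ wt ω u < T ∧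
      (v ∉ Λ ∨ wt ω v < T) := by
  have hsub : reach α lam (RS Λ r) x t ω ⊆ reach α lam (RL Λ) x t ω := by
    intro z hz
    obtain ⟨s, hs, hq⟩ := reach_induction (fun a s => pd (ed α lam (RL Λ) ω) x a ≤ s)
      (by rw [pd_self]) (by
      intro u v s _ _ hj hR hq hlt
      have := pd_step (ed α lam (RL Λ) ω) x u v
      rw [ed_of hj ⟨hR.1, hR.2.1⟩] at this
      exact this.trans (by gcongr)) hz
    exact lt_of_le_of_lt hq hs
  have hfin : (reach α lam (RL Λ) x t ω).Finite :=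
    Λ.finite_toSet.subset (reach_subset (fun u v h => ⟨h.1, h.2⟩) hx ω)
  have hcard' : (reach α lam (RS Λ r) x t ω).ncard ≤ n :=
    (Set.ncard_le_ncard hsub hfin).trans hcard
  refine ⟨hcard', ?_⟩
  by_contra hno
  push Not at hno
  apply hinf
  apply hfin.subset
  refine Set.Subset.trans ?_ hsub
  intro z hz
  obtain ⟨s, hs, hq⟩ := reach_induction (R := fun _ _ => True)
    (fun a s => pd (ed α lam (RS Λ r) ω) x a ≤ s ∧ pd (ed α lam (RL Λ) ω) x a ≤ s)
    (by rw [pd_self, pd_self]; exact ⟨le_rfl, le_rfl⟩) (by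
    rintro u v s _ _ hj _ ⟨hq1, hq2⟩ hlt
    have hst : s < t := lt_of_le_of_lt le_self_add hlt
    have hu1 : u ∈ reach α lam (RS Λ r) x t ω := lt_of_le_of_lt hq1 hst
    have hu2 : u ∈ reach α lam (RL Λ) x t ω := lt_of_le_of_lt hq2 hst
    have huΛ : u ∈ Λ := reach_subset (fun u v h => ⟨h.1, h.2⟩) hx ω hu2
    have huT := hlow u hu2
    have hvΛ : v ∈ Λ := by
      by_contra hv
      have h1 := hΛ v hv
      by_cases hl : r ≤ nrm (u - v)
      · exact absurd (hno u hu1 v hj hl huT).1 hv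
      · push Not at hl
        have h2 := diam hr hx ht hcard' hu1
        have h3 := nrm_add_le (v - u) (u - x)
        rw [sub_add_sub_cancel] at h3
        rw [nrm_sub_comm] at hl
        linarith
    have hv2 : pd (ed α lam (RL Λ) ω) x v ≤ s + ENNReal.ofReal (cost ω u v) := by
      have := pd_step (ed α lam (RL Λ) ω) x u v
      rw [ed_of hj ⟨huΛ, hvΛ⟩] at this
      exact this.trans (by gcongr)
    have hvT := hlow v (lt_of_le_of_lt hv2 hlt)
    have hl : nrm (u - v) < r := by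
      by_contra hl
      push Not at hl
      exact absurd hvT (not_lt.2 (hno u hu1 v hj hl huT).2)
    refine ⟨?_, hv2⟩
    have := pd_step (ed α lam (RS Λ r) ω) x u v
    rw [ed_of hj ⟨huΛ, hvΛ, hl⟩] at this
    exact this.trans (by gcongr)) hz
  exact lt_of_le_of_lt hq.1 hs

end Pool.Agent.W823.SFD
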