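import Pool.Agent.W823.SFD.Moment

set_option autoImplicit false

namespace Pool.Agent.W823.SFD

open MeasureTheory ProbabilityTheory Pool.Agent.W823.SFP

variable {d : ℕ} {α lam : ℝ} {μW μL : Measure ℝ}

theorem ae_one_le' (hW : IsProbabilityMeasure μW) (hL : IsProbabilityMeasure μL)
    (hone : μW (Set.Ici 1) = 1) : ∀ᵐ ω ∂(law d μW μL), ∀ z : Site d, 1 ≤ wt ω z := by
  have hpr := prob_marg (d := d) hW hL
  rw [ae_all_iff]
  intro z
  rw [ae_iff]
  have : {ω : Conf d | ¬ 1 ≤ wt ω z} = (fun ω : Conf d => ω (Sum.inl z)) ⁻¹' (Set.Ici 1)ᶜ := by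
    ext ω; simp [wt]
  have e := Measure.infinitePi_map_eval (marg (d := d) μW μL) (Sum.inl z)
  have hm : marg (d := d) μW μL (Sum.inl z) = μW := rfl
  rw [hm] at e
  rw [this, law, ← Measure.map_apply (by fun_prop) measurableSet_Ici.compl, e]
  exact (prob_compl_eq_zero_iff measurableSet_Ici).2 hone

theorem sum_EE_le (hW : IsProbabilityMeasure μW) (hL : IsProbabilityMeasure μL)
    {Λ : Finset (Site d)} {r : ℝ} {x : Site d} (hx : x ∈ Λ) {t : ENNReal} {n : ℕ} :
    ∑ u ∈ Λ, law d μW μL (EE α lam Λ r x t n u) ≤ n := by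
  classical
  have hpr := prob_marg (d := d) hW hL
  have hP : IsProbabilityMeasure (law d μW μL) := by unfold law; infer_instance
  have h1 : ∀ u, law d μW μL (EE α lam Λ r x t n u) =
      ∫⁻ ω, (EE α lam Λ r x t n u).indicator 1 ω ∂(law d μW μL) := by
    intro u
    rw [lintegral_indicator_one (measurableSet_EE hx u)]
  simp_rw [h1]
  rw [← lintegral_finsetSum _ fun u _ => measurable_one.indicator (measurableSet_EE hx u)]
  calc ∫⁻ ω, ∑ u ∈ Λ, (EE α lam Λ r x t n u).indicator 1 ω ∂(law d μW μL)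
      ≤ ∫⁻ _ω, (n : ENNReal) ∂(law d μW μL) := by
        apply lintegral_mono
        intro ω
        change ∑ u ∈ Λ, (EE α lam Λ r x t n u).indicator (1 : Conf d → ENNReal) ω ≤ (n : ENNReal)
        have hfin : (reach α lam (RS Λ r) x t ω).Finite :=
          Λ.finite_toSet.subset (reach_subset (fun u v h => ⟨h.1, h.2.1⟩) hx ω)
        by_cases hc : (reach α lam (RS Λ r) x t ω).ncard ≤ n
        · have h2 : ∀ u ∈ Λ, (EE α lam Λ r x t n u).indicator (1 : Conf d → ENNReal) ω ≤
              if u ∈ hfin.toFinset then 1 else 0 := by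
            intro u _
            by_cases hu : ω ∈ EE α lam Λ r x t n u
            · have hu1 : u ∈ hfin.toFinset := by rw [Set.Finite.mem_toFinset]; exact hu.1
              rw [Set.indicator_of_mem hu, if_pos hu1]
              rfl
            · rw [Set.indicator_of_notMem hu]
              exact zero_le
          refine (Finset.sum_le_sum h2).trans ?_
          rw [Finset.sum_ite_mem, Finset.sum_const, nsmul_eq_mul, mul_one]
          rw [Set.ncard_eq_toFinset_card _ hfin] at hc
          have h3 := (Finset.card_le_card (Finset.inter_subset_right (s₁ := Λ))).trans hc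
          exact_mod_cast h3
        · have h2 : ∀ u ∈ Λ, (EE α lam Λ r x t n u).indicator (1 : Conf d → ENNReal) ω = 0 := by
            intro u _
            rw [Set.indicator_of_notMem]
            intro hu
            exact hc hu.2
          rw [Finset.sum_eq_zero h2]
          exact zero_le
    _ = n := by simp

/-- The sum of the decay function over the long pairs. -/
theorem long_sum {κ ε r : ℝ} (hr : 1 < r) (hε : 0 < ε) (hεd : ε ≤ d) (hκ : d + 2 * ε ≤ α * κ)
    (u : Site d) :
    ∑' v : Site d, (if r ≤ nrm (u - v) then ENNReal.ofReal (nrm (u - v) ^ (-(α * κ))) else 0) ≤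
      ENNReal.ofReal (r ^ (-ε)) * ENNReal.ofReal ((10 / (ε / d)) ^ d) := by
  have hd : (0 : ℝ) < d := lt_of_lt_of_le hε hεd
  have ha : 0 < ε / d := by positivity
  have ha1 : ε / d ≤ 1 := (div_le_one hd).2 hεd
  have hterm : ∀ v : Site d,
      (if r ≤ nrm (u - v) then ENNReal.ofReal (nrm (u - v) ^ (-(α * κ))) else 0) ≤
      ENNReal.ofReal (r ^ (-ε)) * ∏ i, gd (ε / d) ((u - v) i) := by
    intro v
    split_ifs with h
    · have h1 : 1 < nrm (u - v) := lt_of_lt_of_le hr h
      have h0 : 0 < nrm (u - v) := by linarith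
      have hne : u - v ≠ 0 := by
        intro h2
        rw [h2, nrm_zero] at h0
        exact lt_irrefl _ h0
      refine le_trans ?_ (mul_le_mul' le_rfl (nrm_rpow_le hne (ε / d) ha))
      rw [← ENNReal.ofReal_mul (by positivity)]
      apply ENNReal.ofReal_le_ofReal
      calc nrm (u - v) ^ (-(α * κ)) ≤ nrm (u - v) ^ (-(d + 2 * ε)) :=
            Real.rpow_le_rpow_of_exponent_le h1.le (by linarith)
        _ = nrm (u - v) ^ (-ε) * nrm (u - v) ^ (-((d : ℝ) * (1 + ε / d))) := by
            rw [← Real.rpow_add h0]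
            congr 1
            field_simp
            ring
        _ ≤ _ := by
            gcongr ?_ * _
            exact Real.rpow_le_rpow_of_nonpos (by linarith) h (by linarith)
    · exact zero_le
  refine (ENNReal.tsum_le_tsum hterm).trans ?_
  rw [ENNReal.tsum_mul_left]
  refine mul_le_mul' le_rfl ?_
  have := (Equiv.subLeft u).tsum_eq (fun y : Site d => ∏ i, gd (ε / d) (y i))
  simp only [Equiv.subLeft_apply] at this
  rw [this]
  exact lattice_sum_bound d (ε / d) ha ha1

theorem escape_prob (hlam : 0 < lam) (hW : IsProbabilityMeasure μW)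
    (hL : IsProbabilityMeasure μL) (hone : μW (Set.Ici 1) = 1) {Λ : Finset (Site d)} {r T ρ : ℝ}
    (h0 : μW (Set.Ici T) ≠ 0) (h1 : μW (Set.Iio T) ≠ 0)
    (hr : 1 < r) (hT : 1 ≤ T) {x : Site d} (hx : x ∈ Λ) {t : ENNReal} (ht : 0 < t) {n : ℕ}
    (hρ : (n + 1) * r ≤ ρ) (hΛ : ∀ z, z ∉ Λ → ρ < nrm (z - x)) {κ ε : ℝ}
    (hκ0 : 0 < κ) (hκ1 : κ ≤ 1) (hε : 0 < ε) (hεd : ε ≤ d) (hκ : d + 2 * ε ≤ α * κ) :
    law d μW μL {ω | (reach α lam (fun _ _ => True) x t ω).Infinite ∧
      ∀ z ∈ reach α lam (RL Λ) x t ω, wt ω z < T} ≤ (1 - μW (Set.Ici T)) ^ n +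
      n * (ENNReal.ofReal ((lam * T ^ 2) ^ κ) * mom μW κ *
        (ENNReal.ofReal (r ^ (-ε)) * ENNReal.ofReal ((10 / (ε / d)) ^ d))) := by
  have hae : ({ω | (reach α lam (fun _ _ => True) x t ω).Infinite ∧
      ∀ z ∈ reach α lam (RL Λ) x t ω, wt ω z < T} : Set (Conf d)) ≤ᵐ[law d μW μL]
      (({ω | (∀ z ∈ reach α lam (RL Λ) x t ω, wt ω z < T) ∧
        n < (reach α lam (RL Λ) x t ω).ncard} ∪
        ⋃ u ∈ Λ, ⋃ v : Site d, HH α lam Λ r T x t n u v : Set (Conf d))) := by
    filter_upwards [ae_one_le' (d := d) hW hL hone] with ω hω hmem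
    obtain ⟨hinf, hlow⟩ := hmem
    by_cases hc : (reach α lam (RL Λ) x t ω).ncard ≤ n
    · right
      obtain ⟨h2, u, hu, v, h3, h4, h5, h6⟩ :=
        escape (by linarith) hx ht hρ hΛ hinf hlow hc
      change ω ∈ ⋃ u ∈ Λ, ⋃ v : Site d, HH α lam Λ r T x t n u v
      simp only [Set.mem_iUnion]
      exact ⟨u, reach_subset (fun u v h => ⟨h.1, h.2.1⟩) hx ω hu, v,
        ⟨⟨hu, h2⟩, h4, hω u, h5, hω v, h6, h3⟩⟩
    · left
      push Not at hc
      exact ⟨hlow, hc⟩
  refine (measure_mono_ae hae).trans ((measure_union_le _ _).trans (add_le_add ?_ ?_))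
  · exact couple_bound hlam.le hW hL hone h0 h1 (fun u v h => ⟨h.1, h.2⟩) hx n
  · set c : ENNReal := ENNReal.ofReal ((lam * T ^ 2) ^ κ) * mom μW κ with hc
    calc law d μW μL (⋃ u ∈ Λ, ⋃ v : Site d, HH α lam Λ r T x t n u v)
        ≤ ∑ u ∈ Λ, law d μW μL (⋃ v : Site d, HH α lam Λ r T x t n u v) :=
          measure_biUnion_finset_le _ _
      _ ≤ ∑ u ∈ Λ, law d μW μL (EE α lam Λ r x t n u) *
          (c * (ENNReal.ofReal (r ^ (-ε)) * ENNReal.ofReal ((10 / (ε / d)) ^ d))) := by
          apply Finset.sum_le_sum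
          intro u _
          refine (measure_iUnion_le _).trans ?_
          have hterm : ∀ v : Site d, law d μW μL (HH α lam Λ r T x t n u v) ≤
              law d μW μL (EE α lam Λ r x t n u) * (c *
              (if r ≤ nrm (u - v) then ENNReal.ofReal (nrm (u - v) ^ (-(α * κ))) else 0)) := by
            intro v
            split_ifs with h
            · exact HH_bound hlam hW hL hone hr hT hx hκ0 hκ1 u v h
            · have : HH α lam Λ r T x t n u v = ∅ := by
                ext ω
                simp only [HH, Set.mem_ofPred_eq, Set.mem_empty_iff_false, iff_false]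
                rintro ⟨_, h2, _⟩
                exact h h2
              rw [this, measure_empty]
              exact zero_le
          refine (ENNReal.tsum_le_tsum hterm).trans ?_
          rw [ENNReal.tsum_mul_left, ENNReal.tsum_mul_left]
          refine mul_le_mul' le_rfl (mul_le_mul' le_rfl ?_)
          exact long_sum hr hε hεd hκ u
      _ = (∑ u ∈ Λ, law d μW μL (EE α lam Λ r x t n u)) *
          (c * (ENNReal.ofReal (r ^ (-ε)) * ENNReal.ofReal ((10 / (ε / d)) ^ d))) := by
          rw [Finset.sum_mul]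
      _ ≤ _ := mul_le_mul' (sum_EE_le hW hL hx) le_rfl

end Pool.Agent.W823.SFD
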