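import Pool.Agent.W823.SFD.Link

set_option autoImplicit false

namespace Pool.Agent.W823.SFD

open MeasureTheory ProbabilityTheory Filter Topology Pool.Agent.W823.SFP

variable {d : ℕ} {α lam β : ℝ} {μW μL : Measure ℝ}

theorem exists_Iio_ne (hW : IsProbabilityMeasure μW) :
    ∀ᶠ T : ℝ in atTop, μW (Set.Iio T) ≠ 0 := by
  by_contra hcon
  have key : ∀ n : ℕ, μW (Set.Iio (n : ℝ)) = 0 := by
    intro n
    by_contra hn
    apply hcon
    filter_upwards [eventually_ge_atTop (n : ℝ)] with T hT h0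
    exact hn (measure_mono_null (Set.Iio_subset_Iio hT) h0)
  have h1 : μW Set.univ = 0 := by
    have : (Set.univ : Set ℝ) = ⋃ n : ℕ, Set.Iio (n : ℝ) := by
      ext w
      simp only [Set.mem_univ, Set.mem_iUnion, Set.mem_Iio, true_iff]
      exact exists_nat_gt w
    rw [this]
    exact measure_iUnion_null key
  rw [measure_univ] at h1
  exact one_ne_zero h1

theorem reach_mono {R : Site d → Site d → Prop} {x : Site d} {t : ENNReal} {ω : Conf d} :
    reach α lam R x t ω ⊆ reach α lam (fun _ _ => True) x t ω := by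
  intro z hz
  refine lt_of_le_of_lt (pd_mono (fun a b => ?_) x z) hz
  by_cases hc : ed α lam R ω a b = ⊤
  · rw [hc]; exact le_top
  · obtain ⟨hj, hR⟩ := of_ed hc
    rw [ed_of hj hR, ed_of hj trivial]

/-- If infinitely many sites are reached by time `t`, then a site of weight at least `T` is reached
within a polynomially large box, with high probability. -/
theorem escape_tendsto (h : HypG d α lam β μW μL) : ∃ C1 : ℝ, ∀ (x : Site d) (t : ENNReal), 0 < t →
    Tendsto (fun T : ℝ => law d μW μL {ω | (reach α lam (fun _ _ => True) x t ω).Infinite ∧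
      ∀ z ∈ reach α lam (fun _ _ => True) x t ω, nrm z ≤ T ^ C1 → wt ω z < T})
      atTop (𝓝 0) := by
  have hprW := h.probW
  have hprL := h.probL
  have hd := h.dpos
  have ha := h.apos
  have hb := h.hβ
  have hlam := h.hlam
  -- the exponent `κ`
  set κ : ℝ := (d / α + min 1 β) / 2 with hκ
  have hda1 : d / α < 1 := (div_lt_one ha).2 h.hα
  have hdab : d / α < β := by rw [div_lt_iff₀ ha]; linarith [h.hγ1]
  have hda0 : 0 < d / α := by positivity
  have hdm : d / α < min 1 β := lt_min hda1 hdab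
  have hκ0 : 0 < κ := by linarith
  have hκd : d / α < κ := by linarith
  have hκm : κ < min 1 β := by linarith
  have hκ1 : κ ≤ 1 := (hκm.trans_le (min_le_left _ _)).le
  have hκb : κ < β := hκm.trans_le (min_le_right _ _)
  have hM := h.mo κ hκ0 hκb
  have hακ : (d : ℝ) < α * κ := by
    have := (div_lt_iff₀ ha).1 hκd
    linarith
  set ε : ℝ := min ((α * κ - d) / 2) d with hε
  have hε0 : 0 < ε := lt_min (by linarith) (by linarith)
  have hεd : ε ≤ d := min_le_right _ _
  have hε2 : d + 2 * ε ≤ α * κ := by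
    have : ε ≤ (α * κ - d) / 2 := min_le_left _ _
    linarith
  set E : ℝ := β + 2 + (β + 6) / ε with hE
  refine ⟨E + 1, fun x t ht => ?_⟩
  have hlo := h.lo 1 one_pos
  have hIio := exists_Iio_ne hprW
  -- the bound
  have hbound : ∀ᶠ T : ℝ in atTop,
      law d μW μL {ω | (reach α lam (fun _ _ => True) x t ω).Infinite ∧
        ∀ z ∈ reach α lam (fun _ _ => True) x t ω, nrm z ≤ T ^ (E + 1) → wt ω z < T} ≤
      ENNReal.ofReal (1 * T ^ (0 : ℝ) * Real.exp (-(1 * T ^ (1 : ℝ)))) +
      ENNReal.ofReal (2 * lam ^ κ * T ^ (-2 : ℝ)) * (mom μW κ * ENNReal.ofReal ((10 / (ε / d)) ^ d)) := by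
    filter_upwards [hlo, hIio, eventually_gt_atTop (1 : ℝ),
      eventually_ge_atTop (nrm x + 4 * d)] with T h1 h2 hT hTx
    have hT0 : 0 < T := by linarith
    set n : ℕ := ⌈T ^ (β + 2)⌉₊ with hn
    set r : ℝ := T ^ ((β + 6) / ε) with hr
    have hr1 : 1 < r := Real.one_lt_rpow hT (by positivity)
    set ρ : ℝ := (n + 1) * r with hρ
    have hTb : 1 ≤ T ^ (β + 2) := Real.one_le_rpow hT.le (by positivity)
    have hn1 : T ^ (β + 2) ≤ n := Nat.le_ceil _
    have hn2 : (n : ℝ) < T ^ (β + 2) + 1 := Nat.ceil_lt_add_one (by linarith)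
    have hρ0 : 0 ≤ ρ := by positivity
    have hx : x ∈ bx x ⌈ρ⌉₊ := by
      apply mem_bx_of_nrm
      rw [sub_self, nrm_zero]
      positivity
    have hΛ : ∀ z, z ∉ bx x ⌈ρ⌉₊ → ρ < nrm (z - x) := by
      intro z hz
      by_contra hc
      push Not at hc
      exact hz (mem_bx_of_nrm (hc.trans (Nat.le_ceil _)))
    have h0' : μW (Set.Ici T) ≠ 0 := by
      intro h0
      rw [h0] at h1
      have : 0 < ENNReal.ofReal (T ^ (-(β + 1))) := ENNReal.ofReal_pos.2 (by positivity)
      exact absurd h1 (not_le.2 this)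
    have hesc := escape_prob (lam := lam) (α := α) (Λ := bx x ⌈ρ⌉₊) hlam hprW hprL h.one h0' h2 hr1
      hT.le hx ht (n := n) (ρ := ρ) le_rfl hΛ hκ0 hκ1 hε0 hεd hε2
    -- inclusion of the events
    have hnear : ∀ z ∈ bx x ⌈ρ⌉₊, nrm z ≤ T ^ (E + 1) := by
      intro z hz
      have e1 := nrm_le_of_mem_bx hz
      have e2 : (⌈ρ⌉₊ : ℝ) < ρ + 1 := Nat.ceil_lt_add_one hρ0
      have e3 : ρ ≤ 3 * T ^ E := by
        have : T ^ E = T ^ (β + 2) * r := by
          rw [hE, hr, ← Real.rpow_add hT0]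
        rw [this, hρ]
        have : (n : ℝ) + 1 ≤ 3 * T ^ (β + 2) := by linarith
        nlinarith
      have e4 : 1 ≤ T ^ E := Real.one_le_rpow hT.le (by positivity)
      have e5 := nrm_add_le (z - x) x
      rw [sub_add_cancel] at e5
      have e6 : T ^ (E + 1) = T ^ E * T := by rw [Real.rpow_add hT0, Real.rpow_one]
      have e7 : nrm (z - x) ≤ d * (4 * T ^ E) := e1.trans (by gcongr; linarith)
      have e8 : 0 ≤ nrm x := nrm_nonneg x
      rw [e6]
      calc nrm z ≤ d * (4 * T ^ E) + nrm x := by linarith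
        _ ≤ d * (4 * T ^ E) + nrm x * T ^ E := by
            have : nrm x * 1 ≤ nrm x * T ^ E := mul_le_mul_of_nonneg_left e4 e8
            linarith
        _ = T ^ E * (nrm x + 4 * d) := by ring
        _ ≤ T ^ E * T := by gcongr
    refine (measure_mono ?_).trans (hesc.trans (add_le_add ?_ ?_))
    · rintro ω ⟨hinf, hz⟩
      refine ⟨hinf, fun z hzr => hz z (reach_mono hzr) (hnear z ?_)⟩
      exact reach_subset (fun u v h => ⟨h.1, h.2⟩) hx ω hzr
    · have e1 : (1 - μW (Set.Ici T)) ^ n ≤ (1 - ENNReal.ofReal (T ^ (-(β + 1)))) ^ n :=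
        pow_le_pow_left' (tsub_le_tsub_left h1 _) n
      refine e1.trans ?_
      have e2 := exp_prod_bound (ι := Fin n) (T ^ (-(β + 1))) (by positivity)
      rw [Finset.prod_const, Finset.card_univ, Fintype.card_fin] at e2
      refine e2.trans ?_
      apply ENNReal.ofReal_le_ofReal
      rw [Real.rpow_zero, one_mul, one_mul, one_mul, Real.rpow_one]
      apply Real.exp_le_exp.2
      apply neg_le_neg
      calc T = T ^ (β + 2) * T ^ (-(β + 1)) := by
            rw [← Real.rpow_add hT0]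
            have : β + 2 + -(β + 1) = 1 := by ring
            rw [this, Real.rpow_one]
        _ ≤ n * T ^ (-(β + 1)) := by gcongr
    · have hnE : (n : ENNReal) ≤ ENNReal.ofReal (2 * T ^ (β + 2)) := by
        rw [← ENNReal.ofReal_natCast]
        apply ENNReal.ofReal_le_ofReal
        linarith
      have hlE : ENNReal.ofReal ((lam * T ^ 2) ^ κ) ≤ ENNReal.ofReal (lam ^ κ * T ^ (2 : ℝ)) := by
        apply ENNReal.ofReal_le_ofReal
        rw [Real.mul_rpow hlam.le (by positivity), Real.rpow_two]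
        have hT2 : (1 : ℝ) ≤ T ^ 2 := one_le_pow₀ hT.le
        have : (T ^ 2) ^ κ ≤ T ^ 2 := by
          calc (T ^ 2) ^ κ ≤ (T ^ 2) ^ (1 : ℝ) := Real.rpow_le_rpow_of_exponent_le hT2 hκ1
            _ = T ^ 2 := Real.rpow_one _
        gcongr
      have hrE : r ^ (-ε) = T ^ (-(β + 6)) := by
        rw [hr, ← Real.rpow_mul hT0.le]
        congr 1
        field_simp
      calc (n : ENNReal) * (ENNReal.ofReal ((lam * T ^ 2) ^ κ) * mom μW κ *
            (ENNReal.ofReal (r ^ (-ε)) * ENNReal.ofReal ((10 / (ε / d)) ^ d)))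
          ≤ ENNReal.ofReal (2 * T ^ (β + 2)) * (ENNReal.ofReal (lam ^ κ * T ^ (2 : ℝ)) * mom μW κ *
            (ENNReal.ofReal (r ^ (-ε)) * ENNReal.ofReal ((10 / (ε / d)) ^ d))) := by
            gcongr
        _ = (ENNReal.ofReal (2 * T ^ (β + 2)) * ENNReal.ofReal (lam ^ κ * T ^ (2 : ℝ)) *
              ENNReal.ofReal (T ^ (-(β + 6)))) *
              (mom μW κ * ENNReal.ofReal ((10 / (ε / d)) ^ d)) := by
            rw [hrE]; ring
        _ = _ := by
            rw [← ENNReal.ofReal_mul (by positivity), ← ENNReal.ofReal_mul (by positivity)]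
            congr 2
            have : T ^ (-2 : ℝ) = T ^ (β + 2) * T ^ (2 : ℝ) * T ^ (-(β + 6)) := by
              rw [← Real.rpow_add hT0, ← Real.rpow_add hT0]
              congr 1; ring
            rw [this]
            ring
  -- the limit of the bound
  have l1 := poly_exp_tendsto 1 0 1 1 one_pos one_pos
  have l2 : Tendsto (fun T : ℝ => ENNReal.ofReal (2 * lam ^ κ * T ^ (-2 : ℝ)) *
      (mom μW κ * ENNReal.ofReal ((10 / (ε / d)) ^ d))) atTop (𝓝 0) := by
    have e1 : Tendsto (fun T : ℝ => 2 * lam ^ κ * T ^ (-2 : ℝ)) atTop (𝓝 (2 * lam ^ κ * 0)) :=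
      (tendsto_rpow_neg_atTop two_pos).const_mul _
    rw [mul_zero] at e1
    have e2 := ENNReal.tendsto_ofReal e1
    rw [ENNReal.ofReal_zero] at e2
    have e3 := ENNReal.Tendsto.mul_const (b := mom μW κ * ENNReal.ofReal ((10 / (ε / d)) ^ d)) e2
      (Or.inr (ENNReal.mul_ne_top hM ENNReal.ofReal_ne_top))
    rwa [zero_mul] at e3
  have l3 := l1.add l2
  rw [add_zero] at l3
  exact tendsto_of_tendsto_of_tendsto_of_le_of_le' tendsto_const_nhds l3
    (Eventually.of_forall fun _ => zero_le) hbound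

/-- The key null event. -/
theorem null_event (h : HypG d α lam β μW μL) (x y : Site d) {t t' : ENNReal} (ht : 0 < t)
    (ht' : 0 < t') {ε : ℝ} (hε : 0 < ε) :
    law d μW μL {ω | (reach α lam (fun _ _ => True) x t ω).Infinite ∧
      (reach α lam (fun _ _ => True) y t' ω).Infinite ∧
      t + t' + ENNReal.ofReal ε < dL α lam ω x y} = 0 := by
  obtain ⟨C1, hC1⟩ := escape_tendsto h
  have l1 := hC1 x t ht
  have l2 := hC1 y t' ht'
  have l3 := link_tendsto h C1 hε
  have l4 := (l1.add l2).add l3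
  rw [add_zero, add_zero] at l4
  apply le_antisymm _ zero_le
  refine ge_of_tendsto l4 ?_
  refine Eventually.of_forall fun T => ?_
  refine le_trans (measure_mono ?_) ((measure_union_le _ _).trans
    (add_le_add (measure_union_le _ _) le_rfl))
  rintro ω ⟨hx, hy, hlt⟩
  by_contra hcon
  rw [Set.mem_union, Set.mem_union, not_or, not_or] at hcon
  obtain ⟨⟨c1, c2⟩, c3⟩ := hcon
  simp only [Set.mem_ofPred_eq, not_and, not_forall, not_lt] at c1 c2
  obtain ⟨u, hu1, hu2, hu3⟩ := c1 hx
  obtain ⟨v, hv1, hv2, hv3⟩ := c2 hy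
  apply c3
  refine ⟨u, v, hu2, hv2, hu3, hv3, ?_⟩
  by_contra hle
  push Not at hle
  have e1 : dL α lam ω x u ≤ t := by
    rw [dL_eq]; exact le_of_lt hu1
  have e2 : dL α lam ω v y ≤ t' := by
    rw [dL_comm, dL_eq]; exact le_of_lt hv1
  have : dL α lam ω x y ≤ t + t' + ENNReal.ofReal ε := by
    calc dL α lam ω x y ≤ dL α lam ω x u + dL α lam ω u y := dL_triangle ω _ _ _
      _ ≤ dL α lam ω x u + (dL α lam ω u v + dL α lam ω v y) := by
          gcongr; exact dL_triangle ω _ _ _
      _ ≤ t + (ENNReal.ofReal ε + t') := by gcongr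
      _ = _ := by ring
  exact absurd hlt (not_lt.2 this)

/-- If the explosion time is smaller than `t`, infinitely many sites are reached by time `t`. -/
theorem infinite_of_expl_lt {ω : Conf d} {x : Site d} {t : ENNReal} (ht : expl α lam ω x < t) :
    (reach α lam (fun _ _ => True) x t ω).Infinite := by
  intro hfin
  set n := hfin.toFinset.card with hn
  have h1 : tau α lam ω x (n + 1) < t := lt_of_le_of_lt (le_iSup (tau α lam ω x) (n + 1)) ht
  unfold tau at h1
  obtain ⟨s, hs, hst⟩ := sInf_lt_iff.1 h1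
  have hsub : ball α lam ω x s ⊆ reach α lam (fun _ _ => True) x t ω := by
    intro z hz
    change pd _ _ _ < t
    rw [← dL_eq]
    exact lt_of_le_of_lt hz hst
  have h2 := Set.encard_le_encard hsub
  rw [hfin.encard_eq_coe_toFinset_card, ← hn] at h2
  have h3 : ((n + 1 : ℕ) : ℕ∞) ≤ (n : ℕ∞) := le_trans hs h2
  have h4 : n + 1 ≤ n := by exact_mod_cast h3
  omega

theorem main (h : HypG d α lam β μW μL) : ∀ᵐ ω ∂(law d μW μL), ∀ x y : Site d,
    dL α lam ω x y ≤ expl α lam ω x + expl α lam ω y := by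
  have key : ∀ᵐ ω ∂(law d μW μL), ∀ (x y : Site d) (t t' ε : {q : ℚ // 0 < q}),
      ¬ ((reach α lam (fun _ _ => True) x (ENNReal.ofReal (t.1 : ℝ)) ω).Infinite ∧
      (reach α lam (fun _ _ => True) y (ENNReal.ofReal (t'.1 : ℝ)) ω).Infinite ∧
      ENNReal.ofReal (t.1 : ℝ) + ENNReal.ofReal (t'.1 : ℝ) + ENNReal.ofReal (ε.1 : ℝ) <
        dL α lam ω x y) := by
    rw [ae_all_iff]; intro x
    rw [ae_all_iff]; intro y
    rw [ae_all_iff]; intro t
    rw [ae_all_iff]; intro t'
    rw [ae_all_iff]; intro ε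
    rw [ae_iff]
    simp only [not_not]
    have ht : (0 : ℝ) < (t.1 : ℝ) := by exact_mod_cast t.2
    have ht' : (0 : ℝ) < (t'.1 : ℝ) := by exact_mod_cast t'.2
    have hε : (0 : ℝ) < (ε.1 : ℝ) := by exact_mod_cast ε.2
    exact null_event h x y (ENNReal.ofReal_pos.2 ht) (ENNReal.ofReal_pos.2 ht') hε
  filter_upwards [key] with ω hω x y
  by_contra hcon
  push Not at hcon
  have hx : expl α lam ω x ≠ ⊤ := by
    intro hx; rw [hx, top_add] at hcon; exact not_top_lt hcon
  have hy : expl α lam ω y ≠ ⊤ := by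
    intro hy; rw [hy, add_top] at hcon; exact not_top_lt hcon
  set a : ℝ := (expl α lam ω x).toReal with ha
  set b : ℝ := (expl α lam ω y).toReal with hb
  have hxa : expl α lam ω x = ENNReal.ofReal a := (ENNReal.ofReal_toReal hx).symm
  have hyb : expl α lam ω y = ENNReal.ofReal b := (ENNReal.ofReal_toReal hy).symm
  have ha0 : 0 ≤ a := ENNReal.toReal_nonneg
  have hb0 : 0 ≤ b := ENNReal.toReal_nonneg
  rw [hxa, hyb, ← ENNReal.ofReal_add ha0 hb0] at hcon
  obtain ⟨c, hc1, hc2⟩ := exists_between hcon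
  have hct : c ≠ ⊤ := ne_top_of_lt hc2
  have hcc : a + b < c.toReal := by
    rw [← ENNReal.ofReal_toReal hct] at hc1
    exact (ENNReal.ofReal_lt_ofReal_iff_of_nonneg (by positivity)).1 hc1
  set g := c.toReal - (a + b) with hg
  have hg0 : 0 < g := by linarith
  obtain ⟨t, ht1, ht2⟩ := exists_rat_btwn (show a < a + g / 3 by linarith)
  obtain ⟨t', ht1', ht2'⟩ := exists_rat_btwn (show b < b + g / 3 by linarith)
  obtain ⟨ε, hε1, hε2⟩ := exists_rat_btwn (show (0 : ℝ) < g / 3 by linarith)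
  have ht0 : 0 < t := by
    have : (0 : ℝ) < t := by linarith
    exact_mod_cast this
  have ht0' : 0 < t' := by
    have : (0 : ℝ) < t' := by linarith
    exact_mod_cast this
  have hε0 : 0 < ε := by exact_mod_cast hε1
  refine hω x y ⟨t, ht0⟩ ⟨t', ht0'⟩ ⟨ε, hε0⟩ ⟨?_, ?_, ?_⟩
  · apply infinite_of_expl_lt
    rw [hxa]
    exact (ENNReal.ofReal_lt_ofReal_iff_of_nonneg ha0).2 ht1
  · apply infinite_of_expl_lt
    rw [hyb]
    exact (ENNReal.ofReal_lt_ofReal_iff_of_nonneg hb0).2 ht1'
  · refine lt_of_le_of_lt ?_ hc2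
    rw [← ENNReal.ofReal_add (by linarith) (by linarith),
      ← ENNReal.ofReal_add (by linarith) (by linarith), ← ENNReal.ofReal_toReal hct]
    apply ENNReal.ofReal_le_ofReal
    simp only
    linarith

end Pool.Agent.W823.SFD
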