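import Pool.Agent.W823.SFD.Static

set_option autoImplicit false

namespace Pool.Agent.W823.SFD

open MeasureTheory ProbabilityTheory Filter Topology Pool.Agent.W823.SFP

variable {d : ℕ} {α lam β : ℝ} {μW μL : Measure ℝ}

/-! ### Boxes -/

/-- The box of radius `R` around `x`. -/
noncomputable def bx (x : Site d) (R : ℕ) : Finset (Site d) :=
  Fintype.piFinset fun i => Finset.Icc (x i - R) (x i + R)

theorem mem_bx {x z : Site d} {R : ℕ} : z ∈ bx x R ↔ ∀ i, x i - R ≤ z i ∧ z i ≤ x i + R := by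
  simp [bx, Fintype.mem_piFinset]

theorem card_bx (x : Site d) (R : ℕ) : (bx x R).card = (2 * R + 1) ^ d := by
  rw [bx, Fintype.card_piFinset]
  have : ∀ i : Fin d, (Finset.Icc (x i - (R : ℤ)) (x i + R)).card = 2 * R + 1 := by
    intro i
    rw [Int.card_Icc]
    omega
  simp [this]

theorem mem_bx_of_nrm {x z : Site d} {R : ℕ} (h : nrm (z - x) ≤ R) : z ∈ bx x R := by
  rw [mem_bx]
  intro i
  have h1 := (abs_le_nrm (z - x) i).trans h
  rw [Pi.sub_apply, abs_le] at h1
  have h2 : -(R : ℤ) ≤ z i - x i := by exact_mod_cast h1.1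
  have h3 : z i - x i ≤ (R : ℤ) := by exact_mod_cast h1.2
  constructor <;> linarith

theorem nrm_le_of_abs {x : Site d} {R : ℕ} (h : ∀ i, |x i| ≤ (R : ℤ)) : nrm x ≤ d * R := by
  unfold nrm
  apply Real.sqrt_le_iff.2
  refine ⟨by positivity, ?_⟩
  calc ∑ i, (x i : ℝ) ^ 2 ≤ ∑ _i : Fin d, (R : ℝ) ^ 2 := by
        apply Finset.sum_le_sum
        intro i _
        have h1 : |(x i : ℝ)| ≤ R := by exact_mod_cast h i
        rw [← sq_abs]
        gcongr
    _ = d * (R : ℝ) ^ 2 := by simp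
    _ ≤ (d * R : ℝ) ^ 2 := by
        rw [mul_pow]
        apply mul_le_mul_of_nonneg_right _ (by positivity)
        have : d ≤ d ^ 2 := by nlinarith [Nat.zero_le d, Nat.lt_or_ge d 1]
        exact_mod_cast this

theorem nrm_le_of_mem_bx {x z : Site d} {R : ℕ} (h : z ∈ bx x R) : nrm (z - x) ≤ d * R := by
  apply nrm_le_of_abs
  intro i
  have := mem_bx.1 h i
  rw [Pi.sub_apply, abs_le]
  constructor <;> linarith

/-! ### Parameters -/

/-- The gap. -/
noncomputable def gp (d : ℕ) (α β : ℝ) : ℝ := 2 * d / α - β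

noncomputable def et (d : ℕ) (α β : ℝ) : ℝ := gp d α β / 4

noncomputable def ss (d : ℕ) (α β : ℝ) : ℝ := 1 + gp d α β / (4 * (β + et d α β))

noncomputable def k1 (d : ℕ) (α β : ℝ) : ℝ :=
  (1 + ss d α β) / α * d - ss d α β * (β + et d α β)

theorem gp_pos (h : HypG d α lam β μW μL) : 0 < gp d α β := by
  unfold gp
  rw [sub_pos, lt_div_iff₀ h.apos]
  linarith [h.hγ2]

theorem et_pos (h : HypG d α lam β μW μL) : 0 < et d α β := by
  have := gp_pos h
  unfold et; positivity

theorem one_lt_ss (h : HypG d α lam β μW μL) : 1 < ss d α β := by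
  have := gp_pos h
  have := et_pos h
  have := h.hβ
  unfold ss
  have : 0 < gp d α β / (4 * (β + et d α β)) := by positivity
  linarith

theorem k1_pos (h : HypG d α lam β μW μL) : 0 < k1 d α β := by
  have hg := gp_pos h
  have he := et_pos h
  have hb := h.hβ
  have ha := h.apos
  have hd := h.dpos
  set δ := gp d α β / (4 * (β + et d α β)) with hδ
  have hδ0 : 0 < δ := by positivity
  have hs : ss d α β = 1 + δ := rfl
  have h1 : δ * (β + et d α β) = gp d α β / 4 := by
    rw [hδ]; field_simp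
  have h2 : k1 d α β = gp d α β / 2 + δ * (d / α) := by
    unfold k1
    rw [hs]
    have : (1 + (1 + δ)) / α * d - (1 + δ) * (β + et d α β) =
        (2 * d / α - β) - et d α β - δ * (β + et d α β) + δ * (d / α) := by
      field_simp; ring
    rw [this, h1]
    have h3 : 2 * d / α - β = gp d α β := rfl
    rw [h3]
    unfold et
    ring
  rw [h2]
  positivity

/-! ### The static bounds -/

theorem static_bound (h : HypG d α lam β μW μL) {δ : ℝ} (hδ : 0 < δ) :
    ∃ c : ℝ, 0 < c ∧ ∀ᶠ T : ℝ in atTop, ∀ S, T ≤ S → ∀ u v : Site d,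
      law d μW μL (SB d α lam (ss d α β) δ S u) ≤
        ENNReal.ofReal (Real.exp (-(c * T ^ k1 d α β))) ∧
      (u ≠ v → law d μW μL (LB d α lam (ss d α β) δ S u v) ≤
        ENNReal.ofReal (Real.exp (-(c * T ^ k1 d α β)))) := by
  have := h.probL
  set s := ss d α β with hs
  set qL : ℝ := (μL (Set.Iic δ)).toReal with hqL
  have hqL0 : 0 < qL := ENNReal.toReal_pos (h.posL δ hδ).ne' (measure_ne_top _ _)
  have hqL1 : qL ≤ 1 := by
    rw [hqL]
    exact ENNReal.toReal_le_of_le_ofReal zero_le_one (by rw [ENNReal.ofReal_one]; exact prob_le_one)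
  have hLe : ENNReal.ofReal qL ≤ μL (Set.Iic δ) := ENNReal.ofReal_toReal_le
  have hp := h.p1_pos
  have hp1 := p1_le d α lam
  have hs1 := one_lt_ss h
  have he := et_pos h
  have hb := h.hβ
  have ha := h.apos
  have hd := h.dpos
  have hk := k1_pos h
  set a : ℝ := (1 + s) / α with ha'
  have ha0 : 0 < a := by positivity
  refine ⟨p1 d α lam ^ 2 * qL ^ 2 / 2 ^ (d + 1), by positivity, ?_⟩
  obtain ⟨T1, hT1⟩ := eventually_atTop.1 (h.lo (et d α β) he)
  have hev : ∀ᶠ T : ℝ in atTop, (2 : ℝ) ^ (d + 1) ≤ T ^ (a * d) :=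
    (tendsto_rpow_atTop (by positivity)).eventually_ge_atTop _
  filter_upwards [eventually_ge_atTop T1, eventually_ge_atTop (1 : ℝ), hev] with T hT1' hT hTa
  intro S hS u v
  have hS1 : 1 ≤ S := hT.trans hS
  have hS0 : 0 < S := by linarith
  have hSs : T1 ≤ S ^ s := by
    refine (hT1'.trans hS).trans ?_
    calc S = S ^ (1 : ℝ) := (Real.rpow_one S).symm
      _ ≤ S ^ s := Real.rpow_le_rpow_of_exponent_le hS1 hs1.le
  have hW := hT1 (S ^ s) hSs
  set qW : ℝ := (S ^ s) ^ (-(β + et d α β)) with hqW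
  have hqW0 : 0 < qW := by positivity
  have hqWe : qW = S ^ (-(s * (β + et d α β))) := by
    rw [hqW, ← Real.rpow_mul hS0.le]; congr 1; ring
  -- the side of the box
  have hSa1 : 1 ≤ S ^ a := Real.one_le_rpow hS1 ha0.le
  have hsd : S ^ a / 2 ≤ (sd α s S : ℝ) := by
    have h1 : S ^ a < (sd α s S : ℝ) + 1 := by
      have := Nat.lt_floor_add_one (S ^ a)
      exact this
    have h2 : 1 ≤ sd α s S := Nat.le_floor (by exact_mod_cast hSa1)
    have h3 : (1 : ℝ) ≤ (sd α s S : ℝ) := by exact_mod_cast h2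
    linarith
  have hsdd : S ^ (a * d) / 2 ^ d ≤ (sd α s S : ℝ) ^ d := by
    calc S ^ (a * d) / 2 ^ d = (S ^ a / 2) ^ d := by
          rw [div_pow, Real.rpow_mul hS0.le, Real.rpow_natCast]
      _ ≤ _ := by gcongr
  have hSad : (2 : ℝ) ^ (d + 1) ≤ S ^ (a * d) :=
    hTa.trans (Real.rpow_le_rpow (by linarith) hS (by positivity))
  have hprod : S ^ (a * d) * qW = S ^ k1 d α β := by
    rw [hqWe, ← Real.rpow_add hS0]
    congr 1
  have hTS : T ^ k1 d α β ≤ S ^ k1 d α β := Real.rpow_le_rpow (by linarith) hS hk.le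
  refine ⟨?_, fun huv => ?_⟩
  · refine (SB_prob h u hqW0.le hqL0.le hW hLe).trans ?_
    apply ENNReal.ofReal_le_ofReal
    apply Real.exp_le_exp.2
    apply neg_le_neg
    calc p1 d α lam ^ 2 * qL ^ 2 / 2 ^ (d + 1) * T ^ k1 d α β
        ≤ p1 d α lam * qL / 2 ^ d * S ^ k1 d α β := by
          gcongr
          · nlinarith
          · nlinarith
          · norm_num
          · omega
      _ = S ^ (a * d) / 2 ^ d * (qW * p1 d α lam * qL) := by
          rw [← hprod]; ring
      _ ≤ _ := by gcongr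
  · refine (LB_prob h huv hqW0.le hqL0.le hW hLe).trans ?_
    apply ENNReal.ofReal_le_ofReal
    apply Real.exp_le_exp.2
    apply neg_le_neg
    have h5 : S ^ (a * d) / 2 ^ (d + 1) ≤ (sd α s S : ℝ) ^ d - 1 := by
      have e1 : S ^ (a * d) / 2 ^ (d + 1) = S ^ (a * d) / 2 ^ d / 2 := by
        rw [pow_succ]; field_simp
      have e2 : (2 : ℝ) ≤ S ^ (a * d) / 2 ^ d := by
        rw [le_div_iff₀ (by positivity)]
        calc (2 : ℝ) * 2 ^ d = 2 ^ (d + 1) := by ring
          _ ≤ _ := hSad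
      rw [e1]
      linarith
    calc p1 d α lam ^ 2 * qL ^ 2 / 2 ^ (d + 1) * T ^ k1 d α β
        ≤ p1 d α lam ^ 2 * qL ^ 2 / 2 ^ (d + 1) * S ^ k1 d α β := by gcongr
      _ = S ^ (a * d) / 2 ^ (d + 1) * (qW * p1 d α lam * p1 d α lam * qL * qL) := by
          rw [← hprod]; ring
      _ ≤ _ := by gcongr

/-- Polynomial times stretched exponential. -/
theorem poly_exp_tendsto (A m c κ : ℝ) (hc : 0 < c) (hκ : 0 < κ) :
    Tendsto (fun T : ℝ => ENNReal.ofReal (A * T ^ m * Real.exp (-(c * T ^ κ)))) atTop (𝓝 0) := by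
  have h1 := (tendsto_rpow_mul_exp_neg_mul_atTop_nhds_zero (m / κ) c hc).comp
    (tendsto_rpow_atTop hκ)
  have h2 : Tendsto (fun T : ℝ => A * (T ^ m * Real.exp (-(c * T ^ κ)))) atTop (𝓝 (A * 0)) := by
    apply Tendsto.const_mul
    refine h1.congr' ?_
    filter_upwards [eventually_gt_atTop (0 : ℝ)] with T hT
    simp only [Function.comp]
    rw [← Real.rpow_mul hT.le, mul_div_cancel₀ _ hκ.ne', neg_mul]
  rw [mul_zero] at h2
  have h3 := (ENNReal.tendsto_ofReal h2)
  rw [ENNReal.ofReal_zero] at h3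
  refine h3.congr fun T => ?_
  rw [mul_assoc]

/-! ### The chains -/

/-- The distance with all pairs allowed is `dL`. -/
theorem dL_self (ω : Conf d) (x : Site d) : dL α lam ω x x = 0 := by
  rw [dL_eq, pd_self]

theorem dL_triangle (ω : Conf d) (x y z : Site d) :
    dL α lam ω x z ≤ dL α lam ω x y + dL α lam ω y z := by
  rw [dL_eq, dL_eq, dL_eq]
  exact pd_triangle _ _ _ _

theorem dL_comm (ω : Conf d) (x y : Site d) : dL α lam ω x y = dL α lam ω y x := by
  rw [dL_eq, dL_eq]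
  exact pd_symm (ed_symm (fun _ _ => Iff.rfl) ω) x y

theorem dL_step (ω : Conf d) {x y : Site d} (h : Joined α lam ω x y) :
    dL α lam ω x y ≤ ENNReal.ofReal (cost ω x y) := by
  rw [dL_eq]
  refine (pd_step _ x x y).trans ?_
  rw [pd_self, zero_add, ed_of h trivial]

/-- The bad event: one of the static searches fails. -/
def BadT (d : ℕ) (α lam β : ℝ) (δ : ℝ) (k : ℕ) (T : ℝ) : Set (Conf d) :=
  (⋃ j ∈ Finset.range (k + 1), ⋃ u ∈ bx (0 : Site d) ⌈T ^ ((1 + ss d α β) / α * ss d α β ^ (k + 1))⌉₊,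
    SB d α lam (ss d α β) δ (T ^ (ss d α β ^ j)) u) ∪
  (⋃ u ∈ bx (0 : Site d) ⌈T ^ ((1 + ss d α β) / α * ss d α β ^ (k + 1))⌉₊,
    ⋃ v ∈ (bx (0 : Site d) ⌈T ^ ((1 + ss d α β) / α * ss d α β ^ (k + 1))⌉₊).erase u,
    LB d α lam (ss d α β) δ (T ^ (ss d α β ^ (k + 1))) u v)

theorem bad_tendsto (h : HypG d α lam β μW μL) {δ : ℝ} (hδ : 0 < δ) (k : ℕ) :
    Tendsto (fun T : ℝ => law d μW μL (BadT d α lam β δ k T)) atTop (𝓝 0) := by
  obtain ⟨c, hc, hev⟩ := static_bound (lam := lam) h hδ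
  set s := ss d α β with hs
  set C : ℝ := (1 + s) / α * s ^ (k + 1) with hC
  have hs1 := one_lt_ss h
  have ha := h.apos
  have hC0 : 0 < C := by positivity
  have hkk := k1_pos h
  -- the comparison function
  have hlim := poly_exp_tendsto ((k + 2 : ℝ) * 25 ^ d) (C * (2 * d)) c (k1 d α β) hc hkk
  refine tendsto_of_tendsto_of_tendsto_of_le_of_le' tendsto_const_nhds hlim
    (Eventually.of_forall fun _ => zero_le) ?_
  filter_upwards [hev, eventually_ge_atTop (1 : ℝ)] with T hT hT1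
  set R : ℕ := ⌈T ^ C⌉₊ with hR
  set e : ENNReal := ENNReal.ofReal (Real.exp (-(c * T ^ k1 d α β))) with he
  set N : ℕ := (bx (0 : Site d) R).card with hN
  have hTC : 1 ≤ T ^ C := Real.one_le_rpow hT1 hC0.le
  have hNle : (N : ENNReal) ≤ ENNReal.ofReal ((5 * T ^ C) ^ d) := by
    rw [hN, card_bx]
    have h1 : (((2 * R + 1) ^ d : ℕ) : ENNReal) = ENNReal.ofReal (((2 * R + 1 : ℕ) : ℝ) ^ d) := by
      rw [← ENNReal.ofReal_natCast]; push_cast; rfl
    rw [h1]
    apply ENNReal.ofReal_le_ofReal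
    have h2 : (R : ℝ) < T ^ C + 1 := Nat.ceil_lt_add_one (by linarith)
    push_cast
    gcongr
    linarith
  have hN1 : (1 : ENNReal) ≤ N := by
    rw [hN, card_bx]
    exact_mod_cast Nat.one_le_pow _ _ (by omega)
  have hTj : ∀ j : ℕ, T ≤ T ^ (s ^ j) := fun j => by
    calc T = T ^ (1 : ℝ) := (Real.rpow_one T).symm
      _ ≤ T ^ (s ^ j) := Real.rpow_le_rpow_of_exponent_le hT1 (one_le_pow₀ hs1.le)
  calc law d μW μL (BadT d α lam β δ k T)
      ≤ law d μW μL (⋃ j ∈ Finset.range (k + 1), ⋃ u ∈ bx (0 : Site d) R,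
          SB d α lam s δ (T ^ (s ^ j)) u) +
        law d μW μL (⋃ u ∈ bx (0 : Site d) R, ⋃ v ∈ (bx (0 : Site d) R).erase u,
          LB d α lam s δ (T ^ (s ^ (k + 1))) u v) := measure_union_le _ _
    _ ≤ (∑ _j ∈ Finset.range (k + 1), ∑ _u ∈ bx (0 : Site d) R, e) +
        (∑ u ∈ bx (0 : Site d) R, ∑ _v ∈ bx (0 : Site d) R, e) := by
        gcongr
        · refine (measure_biUnion_finset_le _ _).trans (Finset.sum_le_sum fun j _ => ?_)
          refine (measure_biUnion_finset_le _ _).trans (Finset.sum_le_sum fun u _ => ?_)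
          exact (hT _ (hTj j) u u).1
        · refine (measure_biUnion_finset_le _ _).trans (Finset.sum_le_sum fun u _ => ?_)
          refine (measure_biUnion_finset_le _ _).trans ?_
          refine (Finset.sum_le_sum (f := fun v => law d μW μL (LB d α lam s δ (T ^ (s ^ (k + 1))) u v))
            (g := fun _ => e) fun v hv => ?_).trans
            (Finset.sum_le_sum_of_subset (Finset.erase_subset _ _))
          exact (hT _ (hTj (k + 1)) u v).2 (Finset.ne_of_mem_erase hv).symm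
    _ = ((k + 1 : ℕ) : ENNReal) * (N * e) + N * (N * e) := by
        simp only [Finset.sum_const, Finset.card_range, nsmul_eq_mul, ← hN]
    _ ≤ ((k + 1 : ℕ) : ENNReal) * (N * (N * e)) + N * (N * e) := by
        gcongr
        calc e = 1 * e := (one_mul _).symm
          _ ≤ N * e := by gcongr
    _ = ((k + 2 : ℕ) : ENNReal) * (N * (N * e)) := by push_cast; ring
    _ ≤ ((k + 2 : ℕ) : ENNReal) * (ENNReal.ofReal ((5 * T ^ C) ^ d) *
          (ENNReal.ofReal ((5 * T ^ C) ^ d) * e)) := by gcongr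
    _ = _ := by
        rw [he, ← ENNReal.ofReal_mul (by positivity), ← ENNReal.ofReal_mul (by positivity),
          ← ENNReal.ofReal_natCast, ← ENNReal.ofReal_mul (by positivity)]
        congr 1
        have e1 : T ^ (C * (2 * d)) = (T ^ C) ^ d * (T ^ C) ^ d := by
          rw [Real.rpow_mul (by linarith), ← pow_add, ← Real.rpow_natCast]
          congr 1
          push_cast
          ring
        rw [e1, mul_pow]
        have e2 : (25 : ℝ) ^ d = 5 ^ d * 5 ^ d := by
          rw [← mul_pow]; norm_num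
        rw [e2]
        push_cast
        ring

/-- The chains: outside of the bad event, from a good site one can go up the scales. -/
theorem chain_up (h : HypG d α lam β μW μL) {δ : ℝ} {k : ℕ} {T : ℝ} (hT : 1 ≤ T)
    (hbig : (2 : ℝ) * (1 + (k + 1) * d) * T ^ ((1 + ss d α β) / α * ss d α β ^ k) ≤
      T ^ ((1 + ss d α β) / α * ss d α β ^ (k + 1))) {ω : Conf d}
    (hω : ω ∉ BadT d α lam β δ k T) {u : Site d}
    (hu : nrm u ≤ T ^ ((1 + ss d α β) / α * ss d α β ^ k)) (hwu : T ≤ wt ω u) :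
    ∀ j : ℕ, j ≤ k + 1 → ∃ z : Site d, T ^ (ss d α β ^ j) ≤ wt ω z ∧
      nrm z ≤ (1 + j * d) * T ^ ((1 + ss d α β) / α * ss d α β ^ k) ∧
      dL α lam ω u z ≤ j * ENNReal.ofReal δ := by
  set s := ss d α β with hs
  set a := (1 + s) / α with ha'
  have hs1 := one_lt_ss h
  have ha := h.apos
  have ha0 : 0 < a := by positivity
  have hd := h.dpos
  intro j
  induction j with
  | zero =>
    intro _
    refine ⟨u, ?_, ?_, ?_⟩
    · rw [pow_zero, Real.rpow_one]; exact hwu
    · simpa using hu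
    · rw [dL_self]; exact zero_le
  | succ j ih =>
    intro hj
    obtain ⟨z, h1, h2, h3⟩ := ih (by omega)
    have hTp : 0 < T ^ (a * s ^ k) := by positivity
    have hz : z ∈ bx (0 : Site d) ⌈T ^ (a * s ^ (k + 1))⌉₊ := by
      apply mem_bx_of_nrm
      rw [sub_zero]
      refine le_trans ?_ (Nat.le_ceil _)
      refine h2.trans (le_trans ?_ hbig)
      apply mul_le_mul_of_nonneg_right _ hTp.le
      have : (j : ℝ) ≤ k + 1 := by exact_mod_cast (by omega : j ≤ k + 1)
      nlinarith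
    have hnb : ω ∉ SB d α lam s δ (T ^ (s ^ j)) z := by
      intro hc
      apply hω
      left
      simp only [Set.mem_iUnion]
      exact ⟨j, Finset.mem_range.2 (by omega), z, hz, hc⟩
    have hTj : 1 ≤ T ^ (s ^ j) := Real.one_le_rpow hT (by positivity)
    obtain ⟨z', h4, h5, h6, h7⟩ := step_of_not_SB h hTj hnb h1
    refine ⟨z', ?_, ?_, ?_⟩
    · rw [pow_succ, Real.rpow_mul (by linarith)]
      exact h4
    · have e1 : (T ^ (s ^ j)) ^ a ≤ T ^ (a * s ^ k) := by
        rw [← Real.rpow_mul (by linarith), mul_comm]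
        apply Real.rpow_le_rpow_of_exponent_le hT
        apply mul_le_mul_of_nonneg_left _ ha0.le
        exact pow_le_pow_right₀ hs1.le (by omega)
      have e2 := nrm_add_le z (z' - z)
      rw [add_sub_cancel, nrm_sub_comm z' z] at e2
      push_cast
      have e3 : nrm (z - z') ≤ d * T ^ (a * s ^ k) :=
        h5.trans (mul_le_mul_of_nonneg_left e1 (by linarith))
      nlinarith
    · refine (dL_triangle ω u z z').trans ?_
      push_cast
      rw [add_mul, one_mul]
      exact add_le_add h3 ((dL_step ω h7).trans (ENNReal.ofReal_le_ofReal h6))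

theorem link_det (h : HypG d α lam β μW μL) {δ : ℝ} {k : ℕ} {T : ℝ} (hT : 1 ≤ T)
    (hbig : (2 : ℝ) * (1 + (k + 1) * d) * T ^ ((1 + ss d α β) / α * ss d α β ^ k) ≤
      T ^ ((1 + ss d α β) / α * ss d α β ^ (k + 1))) {ω : Conf d}
    (hω : ω ∉ BadT d α lam β δ k T) {u v : Site d}
    (hu : nrm u ≤ T ^ ((1 + ss d α β) / α * ss d α β ^ k)) (hwu : T ≤ wt ω u)
    (hv : nrm v ≤ T ^ ((1 + ss d α β) / α * ss d α β ^ k)) (hwv : T ≤ wt ω v) :
    dL α lam ω u v ≤ ((2 * (k + 2) : ℕ) : ENNReal) * ENNReal.ofReal δ := by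
  obtain ⟨u', hu1, hu2, hu3⟩ := chain_up h hT hbig hω hu hwu (k + 1) le_rfl
  obtain ⟨v', hv1, hv2, hv3⟩ := chain_up h hT hbig hω hv hwv (k + 1) le_rfl
  set s := ss d α β with hs
  set a := (1 + s) / α with ha'
  have hs1 := one_lt_ss h
  have ha := h.apos
  have ha0 : 0 < a := by positivity
  have hd := h.dpos
  have hTp : 0 < T ^ (a * s ^ k) := by positivity
  push_cast at hu2 hv2
  have key : dL α lam ω u' v' ≤ 2 * ENNReal.ofReal δ := by
    by_cases huv : u' = v'
    · rw [huv, dL_self]; exact zero_le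
    have hmem : ∀ w : Site d, nrm w ≤ (1 + (k + 1) * d) * T ^ (a * s ^ k) →
        w ∈ bx (0 : Site d) ⌈T ^ (a * s ^ (k + 1))⌉₊ := by
      intro w hw
      apply mem_bx_of_nrm
      rw [sub_zero]
      refine le_trans ?_ (Nat.le_ceil _)
      refine hw.trans (le_trans ?_ hbig)
      apply mul_le_mul_of_nonneg_right _ hTp.le
      nlinarith [Nat.cast_nonneg (α := ℝ) k]
    have hnb : ω ∉ LB d α lam s δ (T ^ (s ^ (k + 1))) u' v' := by
      intro hc
      apply hω
      right
      simp only [Set.mem_iUnion]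
      exact ⟨u', hmem u' hu2, v', Finset.mem_erase.2 ⟨fun h => huv h.symm, hmem v' hv2⟩, hc⟩
    have hTj : 1 ≤ T ^ (s ^ (k + 1)) := Real.one_le_rpow hT (by positivity)
    have hnn : nrm (u' - v') ≤ (T ^ (s ^ (k + 1))) ^ a := by
      rw [← Real.rpow_mul (by linarith), mul_comm (s ^ (k + 1)) a]
      refine le_trans ?_ hbig
      have e2 := nrm_add_le (u' - 0) (0 - v')
      rw [sub_add_sub_cancel, nrm_sub_comm 0 v', sub_zero, sub_zero] at e2
      nlinarith
    obtain ⟨z, h1, h2, h3, h4⟩ := link_of_not_LB h hTj hnb hu1 hv1 hnn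
    refine (dL_triangle ω u' z v').trans ?_
    rw [two_mul, dL_comm ω z v']
    exact add_le_add ((dL_step ω h3).trans (ENNReal.ofReal_le_ofReal h1))
      ((dL_step ω h4).trans (ENNReal.ofReal_le_ofReal h2))
  calc dL α lam ω u v ≤ dL α lam ω u u' + dL α lam ω u' v := dL_triangle ω _ _ _
    _ ≤ dL α lam ω u u' + (dL α lam ω u' v' + dL α lam ω v' v) := by
        gcongr; exact dL_triangle ω _ _ _
    _ ≤ ((k + 1 : ℕ) : ENNReal) * ENNReal.ofReal δ + (2 * ENNReal.ofReal δ +
        ((k + 1 : ℕ) : ENNReal) * ENNReal.ofReal δ) := by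
        rw [dL_comm ω v' v]
        gcongr
    _ = _ := by push_cast; ring

/-- Two good sites are close in the weighted distance, with high probability, uniformly over
polynomially large boxes. -/
theorem link_tendsto (h : HypG d α lam β μW μL) (C1 : ℝ) {ε : ℝ} (hε : 0 < ε) :
    Tendsto (fun T : ℝ => law d μW μL {ω | ∃ u v : Site d, nrm u ≤ T ^ C1 ∧ nrm v ≤ T ^ C1 ∧
      T ≤ wt ω u ∧ T ≤ wt ω v ∧ ENNReal.ofReal ε < dL α lam ω u v}) atTop (𝓝 0) := by
  set s := ss d α β with hs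
  have hs1 := one_lt_ss h
  have ha := h.apos
  set a := (1 + s) / α with ha'
  have ha0 : 0 < a := by positivity
  obtain ⟨k, hk⟩ := pow_unbounded_of_one_lt (C1 / a) hs1
  have hk' : C1 ≤ a * s ^ k := by
    have := (div_lt_iff₀ ha0).1 hk
    linarith
  set δ : ℝ := ε / (2 * (k + 2)) with hδ
  have hδ0 : 0 < δ := by positivity
  have hb := bad_tendsto (lam := lam) h hδ0 k
  have hexp : 0 < a * s ^ (k + 1) - a * s ^ k := by
    have : a * s ^ (k + 1) - a * s ^ k = a * s ^ k * (s - 1) := by ring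
    rw [this]
    have : 0 < s - 1 := by linarith
    positivity
  have hbig : ∀ᶠ T : ℝ in atTop, (2 : ℝ) * (1 + (k + 1) * d) ≤ T ^ (a * s ^ (k + 1) - a * s ^ k) :=
    (tendsto_rpow_atTop hexp).eventually_ge_atTop _
  refine tendsto_of_tendsto_of_tendsto_of_le_of_le' tendsto_const_nhds hb
    (Eventually.of_forall fun _ => zero_le) ?_
  filter_upwards [hbig, eventually_ge_atTop (1 : ℝ)] with T hT hT1
  apply measure_mono
  rintro ω ⟨u, v, hu, hv, hwu, hwv, hlt⟩
  by_contra hω
  have hTp : 0 < T ^ (a * s ^ k) := by positivity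
  have hb2 : (2 : ℝ) * (1 + (k + 1) * d) * T ^ (a * s ^ k) ≤ T ^ (a * s ^ (k + 1)) := by
    calc (2 : ℝ) * (1 + (k + 1) * d) * T ^ (a * s ^ k)
        ≤ T ^ (a * s ^ (k + 1) - a * s ^ k) * T ^ (a * s ^ k) := by gcongr
      _ = T ^ (a * s ^ (k + 1)) := by
          rw [← Real.rpow_add (by linarith)]; congr 1; ring
  have hTT : T ^ C1 ≤ T ^ (a * s ^ k) := Real.rpow_le_rpow_of_exponent_le hT1 hk'
  have := link_det h hT1 hb2 hω (hu.trans hTT) hwu (hv.trans hTT) hwv
  refine absurd hlt (not_lt.2 (this.trans (le_of_eq ?_)))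
  rw [← ENNReal.ofReal_natCast, ← ENNReal.ofReal_mul (by positivity)]
  congr 1
  rw [hδ]
  push_cast
  field_simp

end Pool.Agent.W823.SFD
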