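import Pool.Agent.W823.SFD.Defs
import Pool.Agent.W823.SFD.Dist
import Pool.Agent.W823.SFP.Good

set_option autoImplicit false

namespace Pool.Agent.W823.SFD

open MeasureTheory ProbabilityTheory Pool.Agent.W823.SFP

variable {d : ℕ} {α lam : ℝ}

open Classical in
/-- The weight of the pair `x`, `y` (infinite if the pair is not joined or not allowed). -/
noncomputable def ed (α lam : ℝ) (R : Site d → Site d → Prop) (ω : Conf d) (x y : Site d) : ENNReal :=
  if Joined α lam ω x y ∧ R x y then ENNReal.ofReal (cost ω x y) else ⊤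

theorem ed_of {R : Site d → Site d → Prop} {ω : Conf d} {x y : Site d}
    (h : Joined α lam ω x y) (h' : R x y) : ed α lam R ω x y = ENNReal.ofReal (cost ω x y) := by
  unfold ed; rw [if_pos ⟨h, h'⟩]

theorem of_ed {R : Site d → Site d → Prop} {ω : Conf d} {x y : Site d}
    (h : ed α lam R ω x y ≠ ⊤) : Joined α lam ω x y ∧ R x y := by
  unfold ed at h
  by_contra hc
  rw [if_neg hc] at h
  exact h rfl

theorem dL_eq (ω : Conf d) (x y : Site d) :
    dL α lam ω x y = pd (ed α lam (fun _ _ => True) ω) x y := by
  unfold dL pd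
  apply le_antisymm
  · refine le_iInf fun n => le_iInf fun v => le_iInf fun hv => ?_
    by_cases h : ∀ i : Fin n, Joined α lam ω (v i.castSucc) (v i.succ)
    · refine (iInf_le _ n).trans ((iInf_le _ v).trans ((iInf_le _ hv.1).trans
        ((iInf_le _ hv.2).trans ((iInf_le _ h).trans (Finset.sum_le_sum fun i _ => ?_)))))
      rw [ed_of (h i) trivial]
    · push Not at h
      obtain ⟨i, hi⟩ := h
      have : ∑ i : Fin n, ed α lam (fun _ _ => True) ω (v i.castSucc) (v i.succ) = ⊤ := by
        rw [ENNReal.sum_eq_top]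
        refine ⟨i, Finset.mem_univ _, ?_⟩
        by_contra hc
        exact hi (of_ed hc).1
      rw [this]; exact le_top
  · refine le_iInf fun n => le_iInf fun v => le_iInf fun h0 => le_iInf fun h1 => le_iInf fun h => ?_
    refine (iInf_le _ n).trans ((iInf_le _ v).trans ((iInf_le _ ⟨h0, h1⟩).trans
      (Finset.sum_le_sum fun i _ => ?_)))
    rw [ed_of (h i) trivial]

theorem ed_symm {R : Site d → Site d → Prop} (hR : ∀ x y, R x y ↔ R y x) (ω : Conf d)
    (x y : Site d) : ed α lam R ω x y = ed α lam R ω y x := by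
  classical
  unfold ed
  have : (SFP.Joined α lam ω x y ∧ R x y) ↔ (SFP.Joined α lam ω y x ∧ R y x) :=
    ⟨fun h => ⟨h.1.symm, (hR x y).1 h.2⟩, fun h => ⟨h.1.symm, (hR x y).2 h.2⟩⟩
  rw [cost_comm x y]
  exact if_congr this rfl rfl

theorem measurable_wt (x : Site d) : Measurable fun ω : Conf d => wt ω x := measurable_pi_apply _

theorem measurable_mark (x y : Site d) : Measurable fun ω : Conf d => mark ω x y :=
  measurable_pi_apply _

theorem measurable_cost (x y : Site d) : Measurable fun ω : Conf d => cost ω x y :=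
  measurable_pi_apply _

theorem measurableSet_joined (x y : Site d) : MeasurableSet {ω : Conf d | Joined α lam ω x y} := by
  unfold SFP.Joined
  by_cases h1 : nrm (x - y) = 1
  · simp [h1]
  · by_cases h2 : 1 < nrm (x - y)
    · simp only [h1, h2, false_or, true_and]
      have := measurable_wt x
      have := measurable_wt y
      have := measurable_mark x y
      exact measurableSet_lt (by fun_prop) (by fun_prop)
    · simp [h1, h2]

theorem measurable_ed (R : Site d → Site d → Prop) (x y : Site d) :
    Measurable fun ω : Conf d => ed α lam R ω x y := by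
  classical
  by_cases hR : R x y
  · have : (fun ω : Conf d => ed α lam R ω x y) =
        fun ω => if ω ∈ {ω : Conf d | SFP.Joined α lam ω x y} then ENNReal.ofReal (cost ω x y)
          else ⊤ := by
      funext ω
      unfold ed
      exact if_congr ⟨fun h => h.1, fun h => ⟨h, hR⟩⟩ rfl rfl
    rw [this]
    exact Measurable.ite (measurableSet_joined x y) (measurable_cost x y).ennreal_ofReal
      measurable_const
  · have : (fun ω : Conf d => ed α lam R ω x y) = fun _ => ⊤ := by
      funext ω
      unfold ed
      rw [if_neg fun h => hR h.2]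
    rw [this]
    exact measurable_const

/-- The set of the sites which are reached by time `t` by allowed paths. -/
def reach (α lam : ℝ) (R : Site d → Site d → Prop) (x : Site d) (t : ENNReal) (ω : Conf d) :
    Set (Site d) := {z | pd (ed α lam R ω) x z < t}

theorem measurableSet_reach (R : Site d → Site d → Prop) (x : Site d) (t : ENNReal) (z : Site d) :
    MeasurableSet {ω : Conf d | z ∈ reach α lam R x t ω} :=
  measurableSet_lt (measurable_pd (fun x y => measurable_ed R x y) x z) measurable_const

theorem self_mem_reach {R : Site d → Site d → Prop} {x : Site d} {t : ENNReal} {ω : Conf d}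
    (ht : 0 < t) : x ∈ reach α lam R x t ω := by
  unfold reach
  rw [Set.mem_ofPred_eq, pd_self]
  exact ht

/-- Induction over a path realising a reached site. -/
theorem reach_induction {R : Site d → Site d → Prop} {x : Site d} {t : ENNReal} {ω : Conf d}
    (Q : Site d → ENNReal → Prop) (h0 : Q x 0)
    (hs : ∀ (u v : Site d) (s : ENNReal), u ∈ reach α lam R x t ω → v ∈ reach α lam R x t ω →
      Joined α lam ω u v → R u v → Q u s → s + ENNReal.ofReal (cost ω u v) < t →
      Q v (s + ENNReal.ofReal (cost ω u v))) {z : Site d} (hz : z ∈ reach α lam R x t ω) :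
    ∃ s, s < t ∧ Q z s := by
  obtain ⟨n, v, hv0, hvn, hsum⟩ := exists_path hz
  have := path_induction v hsum (fun a s => pd (ed α lam R ω) x a ≤ s ∧ Q a s)
    ⟨by rw [hv0, pd_self], by rwa [hv0]⟩ (by
    rintro i s ⟨h1, h2⟩ h3
    have hne : ed α lam R ω (v i.castSucc) (v i.succ) ≠ ⊤ := by
      intro h
      rw [h, add_top] at h3
      exact not_top_lt h3
    obtain ⟨hj, hR⟩ := of_ed hne
    have he := ed_of hj hR
    have hp : pd (ed α lam R ω) x (v i.succ) ≤ s + ed α lam R ω (v i.castSucc) (v i.succ) :=
      (pd_step _ _ _ _).trans (by gcongr)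
    refine ⟨hp, ?_⟩
    rw [he] at h3 hp ⊢
    refine hs _ _ _ (lt_of_le_of_lt (h1.trans le_self_add) h3) (lt_of_le_of_lt hp h3) hj hR h2 h3) (Fin.last n)
  obtain ⟨s, hs, -, hq⟩ := this
  rw [hvn] at hq
  exact ⟨s, hs, hq⟩

theorem joined_mono (hlam : 0 ≤ lam) {ω ω' : Conf d} {x y : Site d}
    (hm : mark ω x y = mark ω' x y) (hx0 : 0 ≤ wt ω x) (hy0 : 0 ≤ wt ω y)
    (hx : wt ω x ≤ wt ω' x) (hy : wt ω y ≤ wt ω' y) (h : Joined α lam ω x y) :
    Joined α lam ω' x y := by
  rcases h with h | ⟨h1, h2⟩
  · exact Or.inl h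
  · refine Or.inr ⟨h1, ?_⟩
    rw [← hm]
    refine lt_of_lt_of_le h2 ?_
    have : 0 < nrm (x - y) ^ α := Real.rpow_pos_of_pos (by linarith) _
    have h3 : 0 ≤ wt ω' x := hx0.trans hx
    have h4 : 0 ≤ lam * wt ω' x := mul_nonneg hlam h3
    gcongr

/-- If the weights are lowered outside the reached set, the reached set does not change. -/
theorem reach_eq (hlam : 0 ≤ lam) {R : Site d → Site d → Prop} {x : Site d} {t : ENNReal}
    {ω ω' : Conf d}
    (h1 : ∀ z ∈ reach α lam R x t ω, wt ω' z = wt ω z)
    (h2 : ∀ z, wt ω' z ≤ wt ω z) (h0 : ∀ z, 0 ≤ wt ω' z)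
    (hm : ∀ x y, mark ω' x y = mark ω x y) (hc : ∀ x y, cost ω' x y = cost ω x y) :
    reach α lam R x t ω' = reach α lam R x t ω := by
  ext z
  constructor
  · intro hz
    obtain ⟨s, hs, hq⟩ := reach_induction (fun a s => pd (ed α lam R ω) x a ≤ s)
      (by rw [pd_self]) (by
      intro u v s _ _ hj hR hq hlt
      have hj' : Joined α lam ω u v :=
        joined_mono hlam (hm u v) (h0 u) (h0 v) (h2 u) (h2 v) hj
      have := pd_step (ed α lam R ω) x u v
      rw [ed_of hj' hR] at this
      rw [hc u v]
      exact this.trans (by gcongr)) hz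
    exact lt_of_le_of_lt hq hs
  · intro hz
    obtain ⟨s, hs, hq⟩ := reach_induction (fun a s => pd (ed α lam R ω') x a ≤ s)
      (by rw [pd_self]) (by
      intro u v s hu hv hj hR hq hlt
      have hj' : Joined α lam ω' u v := by
        refine joined_mono hlam (hm u v).symm ?_ ?_ ?_ ?_ hj
        · rw [← h1 u hu]; exact h0 u
        · rw [← h1 v hv]; exact h0 v
        · rw [h1 u hu]
        · rw [h1 v hv]
      have := pd_step (ed α lam R ω') x u v
      rw [ed_of hj' hR, hc u v] at this
      exact this.trans (by gcongr)) hz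
    exact lt_of_le_of_lt hq hs

/-- The reached set only depends on the allowed pairs. -/
theorem reach_congr {R : Site d → Site d → Prop} {x : Site d} {t : ENNReal} {ω ω' : Conf d}
    (h : ∀ u v, R u v → wt ω u = wt ω' u ∧ wt ω v = wt ω' v ∧ mark ω u v = mark ω' u v ∧
      cost ω u v = cost ω' u v) : reach α lam R x t ω = reach α lam R x t ω' := by
  classical
  have : ed α lam R ω = ed α lam R ω' := by
    funext u v
    unfold ed
    by_cases hR : R u v
    · obtain ⟨h1, h2, h3, h4⟩ := h u v hR
      have : SFP.Joined α lam ω u v = SFP.Joined α lam ω' u v := by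
        unfold SFP.Joined
        rw [h1, h2, h3]
      rw [h4]
      exact if_congr (by rw [this]) rfl rfl
    · rw [if_neg fun h => hR h.2, if_neg fun h => hR h.2]
  unfold reach
  rw [this]

end Pool.Agent.W823.SFD
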