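import Pool.Agent.W823.SFD.Escape

set_option autoImplicit false

namespace Pool.Agent.W823.SFD

open MeasureTheory ProbabilityTheory Pool.Agent.W823.SFP

variable {d : ℕ} {α lam : ℝ} {μW μL : Measure ℝ}

theorem unif_le {κ : ℝ} (hκ0 : 0 < κ) (hκ1 : κ ≤ 1) {c : ℝ} (hc : 0 ≤ c) :
    (volume : Measure ℝ).restrict (Set.Icc 0 1) (Set.Iio c) ≤ ENNReal.ofReal (c ^ κ) := by
  rcases le_total c 1 with h | h
  · rw [unif_Iio c h]
    apply ENNReal.ofReal_le_ofReal
    rcases hc.eq_or_lt with h0 | h0
    · rw [← h0, Real.zero_rpow hκ0.ne']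
    · calc c = c ^ (1 : ℝ) := (Real.rpow_one c).symm
        _ ≤ c ^ κ := Real.rpow_le_rpow_of_exponent_ge h0 h hκ1
  · calc (volume : Measure ℝ).restrict (Set.Icc 0 1) (Set.Iio c) ≤
          (volume : Measure ℝ).restrict (Set.Icc 0 1) Set.univ := measure_mono (Set.subset_univ _)
      _ = ENNReal.ofReal 1 := by simp
      _ ≤ _ := ENNReal.ofReal_le_ofReal (Real.one_le_rpow h hκ0.le)

/-- The moment of order `κ` of the vertex-weight. -/
noncomputable def mom (μW : Measure ℝ) (κ : ℝ) : ENNReal := ∫⁻ w, ENNReal.ofReal (w ^ κ) ∂μW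

theorem one_le_mom (hW : IsProbabilityMeasure μW) (hone : μW (Set.Ici 1) = 1) {κ : ℝ}
    (hκ0 : 0 < κ) : 1 ≤ mom μW κ := by
  have hae : ∀ᵐ w ∂μW, (1 : ℝ) ≤ w := by
    rw [ae_iff]
    have : {w : ℝ | ¬ 1 ≤ w} = (Set.Ici 1)ᶜ := by ext w; simp
    rw [this]
    exact (prob_compl_eq_zero_iff measurableSet_Ici).2 hone
  calc (1 : ENNReal) = ∫⁻ _w, 1 ∂μW := by simp
    _ ≤ mom μW κ := by
        unfold mom
        apply lintegral_mono_ae
        filter_upwards [hae] with w hw
        rw [← ENNReal.ofReal_one]
        exact ENNReal.ofReal_le_ofReal (Real.one_le_rpow hw hκ0.le)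

theorem joined_mark {ω : Conf d} {u v : Site d} (h : Joined α lam ω u v)
    (h1 : 1 < nrm (u - v)) : mark ω u v < lam * wt ω u * wt ω v / nrm (u - v) ^ α := by
  rcases h with h | ⟨-, h⟩
  · exact absurd h h1.ne'
  · refine lt_of_lt_of_le h ?_
    have := Real.add_one_le_exp (-(lam * wt ω u * wt ω v / nrm (u - v) ^ α))
    linarith

/-- The event whose probability is estimated: `u` is reached, the reached set is small, and the
long pair `u`, `v` is joined. -/
def HH (α lam : ℝ) (Λ : Finset (Site d)) (r T : ℝ) (x : Site d) (t : ENNReal) (n : ℕ)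
    (u v : Site d) : Set (Conf d) :=
  {ω | (u ∈ reach α lam (RS Λ r) x t ω ∧ (reach α lam (RS Λ r) x t ω).ncard ≤ n) ∧
    r ≤ nrm (u - v) ∧ 1 ≤ wt ω u ∧ wt ω u < T ∧ 1 ≤ wt ω v ∧ (v ∉ Λ ∨ wt ω v < T) ∧
    Joined α lam ω u v}

def EE (α lam : ℝ) (Λ : Finset (Site d)) (r : ℝ) (x : Site d) (t : ENNReal) (n : ℕ)
    (u : Site d) : Set (Conf d) :=
  {ω | u ∈ reach α lam (RS Λ r) x t ω ∧ (reach α lam (RS Λ r) x t ω).ncard ≤ n}

theorem measurableSet_EE {Λ : Finset (Site d)} {r : ℝ} {x : Site d} (hx : x ∈ Λ) {t : ENNReal}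
    {n : ℕ} (u : Site d) : MeasurableSet (EE α lam Λ r x t n u) := by
  classical
  have : EE α lam Λ r x t n u = ⋃ A ∈ Λ.powerset.filter (fun A => u ∈ A ∧ A.card ≤ n),
      {ω | reach α lam (RS Λ r) x t ω = ↑A} := by
    ext ω
    have hsub := reach_subset (α := α) (lam := lam) (t := t) (R := RS Λ r)
      (fun u v h => ⟨h.1, h.2.1⟩) hx ω
    have hfin : (reach α lam (RS Λ r) x t ω).Finite := Λ.finite_toSet.subset hsub
    simp only [EE, Set.mem_ofPred_eq, Set.mem_iUnion, Finset.mem_filter, Finset.mem_powerset]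
    constructor
    · rintro ⟨h1, h2⟩
      refine ⟨hfin.toFinset, ⟨fun z hz => hsub ((hfin.mem_toFinset).1 hz),
        (hfin.mem_toFinset).2 h1, ?_⟩, by simp⟩
      rwa [Set.ncard_eq_toFinset_card _ hfin] at h2
    · rintro ⟨A, ⟨-, h2, h3⟩, h4⟩
      rw [h4]
      exact ⟨by exact_mod_cast h2, by rwa [Set.ncard_coe_finset]⟩
  rw [this]
  exact Finset.measurableSet_biUnion _ fun A _ => measurableSet_reach_eq _ _ _ _

theorem HH_bound (hlam : 0 < lam) (hW : IsProbabilityMeasure μW)
    (hL : IsProbabilityMeasure μL) (hone : μW (Set.Ici 1) = 1) {Λ : Finset (Site d)} {r T : ℝ}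
    (hr : 1 < r) (hT : 1 ≤ T) {x : Site d} (hx : x ∈ Λ) {t : ENNReal} {n : ℕ} {κ : ℝ}
    (hκ0 : 0 < κ) (hκ1 : κ ≤ 1) (u v : Site d) (huv : r ≤ nrm (u - v)) :
    law d μW μL (HH α lam Λ r T x t n u v) ≤ law d μW μL (EE α lam Λ r x t n u) *
      (ENNReal.ofReal ((lam * T ^ 2) ^ κ) * mom μW κ * ENNReal.ofReal (nrm (u - v) ^ (-(α * κ)))) := by
  have hpr := prob_marg (d := d) hW hL
  have hnr : 0 < nrm (u - v) := by linarith
  have hna : 0 < nrm (u - v) ^ α := Real.rpow_pos_of_pos hnr _
  have hpow : (1 / nrm (u - v) ^ α) ^ κ = nrm (u - v) ^ (-(α * κ)) := by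
    rw [one_div, ← Real.rpow_neg hnr.le, ← Real.rpow_mul hnr.le]
    congr 1; ring
  -- coordinates used by the first event
  have hne : ∀ a b : Site d, RS Λ r a b → s(a, b) ≠ s(u, v) := by
    intro a b hab h
    rw [Sym2.eq_iff] at h
    have := hab.2.2
    rcases h with ⟨rfl, rfl⟩ | ⟨rfl, rfl⟩
    · linarith
    · rw [nrm_sub_comm] at this; linarith
  by_cases hv : v ∈ Λ
  · -- both ends in `Λ`
    let c : ℝ := lam * T ^ 2 / nrm (u - v) ^ α
    have hc : 0 ≤ c := by positivity
    let F : Set (Conf d) := {ω | ω (Sum.inr (Sum.inl s(u, v))) ∈ Set.Iio c}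
    have hFm : MeasurableSet F := measurableSet_Iio.preimage (by fun_prop)
    have hsub : HH α lam Λ r T x t n u v ⊆ EE α lam Λ r x t n u ∩ F := by
      rintro ω ⟨h1, h2, h3, h4, h5, h6, h7⟩
      refine ⟨h1, ?_⟩
      have h8 := joined_mark h7 (by linarith)
      have h9 : wt ω v < T := h6.resolve_left (not_not.2 hv)
      refine lt_of_lt_of_le h8 ?_
      simp only [c]
      apply div_le_div_of_nonneg_right _ hna.le
      have : wt ω u * wt ω v ≤ T * T := mul_le_mul h4.le h9.le (by linarith) (by linarith)
      nlinarith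
    have hind := indep_coord (marg (d := d) μW μL) {i | i ≠ Sum.inr (Sum.inl s(u, v))}
      (measurableSet_EE (α := α) (lam := lam) (r := r) (t := t) (n := n) hx u) hFm
      (by
        intro ω ω' h hω
        have : reach α lam (RS Λ r) x t ω = reach α lam (RS Λ r) x t ω' := by
          apply reach_congr
          intro a b hab
          refine ⟨h _ (by simp), h _ (by simp), h _ ?_, h _ (by simp)⟩
          intro hh
          exact hne a b hab (Sum.inl_injective (Sum.inr_injective hh))
        unfold EE at hω ⊢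
        rw [Set.mem_ofPred_eq, ← this]
        exact hω)
      (by
        intro ω ω' h hω
        change ω' (Sum.inr (Sum.inl s(u, v))) < c
        rw [← h _ (by simp)]
        exact hω)
    calc law d μW μL (HH α lam Λ r T x t n u v)
        ≤ law d μW μL (EE α lam Λ r x t n u ∩ F) := measure_mono hsub
      _ = law d μW μL (EE α lam Λ r x t n u) * law d μW μL F := hind
      _ ≤ _ := by
          refine mul_le_mul' le_rfl ?_
          have e := Measure.infinitePi_map_eval (marg (d := d) μW μL) (Sum.inr (Sum.inl s(u, v)))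
          have e2 : law d μW μL F = (volume : Measure ℝ).restrict (Set.Icc 0 1) (Set.Iio c) := by
            have : marg (d := d) μW μL (Sum.inr (Sum.inl s(u, v))) =
              (volume : Measure ℝ).restrict (Set.Icc 0 1) := rfl
            rw [← this, ← e, Measure.map_apply (by fun_prop) measurableSet_Iio]
            rfl
          rw [e2]
          refine (unif_le hκ0 hκ1 hc).trans ?_
          have e3 : c ^ κ = (lam * T ^ 2) ^ κ * nrm (u - v) ^ (-(α * κ)) := by
            simp only [c]
            rw [div_eq_mul_one_div, Real.mul_rpow (by positivity) (by positivity), hpow]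
          rw [e3, ENNReal.ofReal_mul (by positivity)]
          gcongr
          calc ENNReal.ofReal ((lam * T ^ 2) ^ κ) = ENNReal.ofReal ((lam * T ^ 2) ^ κ) * 1 :=
                (mul_one _).symm
            _ ≤ _ := by
                gcongr
                exact one_le_mom hW hone hκ0
  · -- the end `v` is outside
    let a : ℝ := lam * T / nrm (u - v) ^ α
    have ha : 0 ≤ a := by positivity
    let B : Set (ℝ × ℝ) := {p | 1 ≤ p.1 ∧ p.2 < a * p.1}
    have hB : MeasurableSet B :=
      (measurableSet_le measurable_const measurable_fst).inter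
        (measurableSet_lt measurable_snd (by fun_prop))
    let F : Set (Conf d) := {ω | (ω (Sum.inl v), ω (Sum.inr (Sum.inl s(u, v)))) ∈ B}
    have hFm : MeasurableSet F := hB.preimage (by fun_prop)
    have hsub : HH α lam Λ r T x t n u v ⊆ EE α lam Λ r x t n u ∩ F := by
      rintro ω ⟨h1, h2, h3, h4, h5, h6, h7⟩
      refine ⟨h1, h5, ?_⟩
      have h8 := joined_mark h7 (by linarith)
      refine lt_of_lt_of_le h8 ?_
      simp only [a]
      rw [div_mul_eq_mul_div]
      apply div_le_div_of_nonneg_right _ hna.le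
      change lam * wt ω u * wt ω v ≤ lam * T * wt ω v
      have : 0 ≤ wt ω v := by linarith
      gcongr
    have hind := indep_coord (marg (d := d) μW μL)
      {i | i ≠ Sum.inr (Sum.inl s(u, v)) ∧ i ≠ Sum.inl v}
      (measurableSet_EE (α := α) (lam := lam) (r := r) (t := t) (n := n) hx u) hFm
      (by
        intro ω ω' h hω
        have : reach α lam (RS Λ r) x t ω = reach α lam (RS Λ r) x t ω' := by
          apply reach_congr
          intro a b hab
          refine ⟨h _ ⟨by simp, ?_⟩, h _ ⟨by simp, ?_⟩, h _ ⟨?_, by simp⟩, h _ ⟨by simp, by simp⟩⟩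
          · intro hh
            exact hv (Sum.inl_injective hh ▸ hab.1)
          · intro hh
            exact hv (Sum.inl_injective hh ▸ hab.2.1)
          · intro hh
            exact hne a b hab (Sum.inl_injective (Sum.inr_injective hh))
        unfold EE at hω ⊢
        rw [Set.mem_ofPred_eq, ← this]
        exact hω)
      (by
        intro ω ω' h hω
        change (ω' (Sum.inl v), ω' (Sum.inr (Sum.inl s(u, v)))) ∈ B
        rw [← h (Sum.inl v) (by simp), ← h (Sum.inr (Sum.inl s(u, v))) (by simp)]
        exact hω)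
    calc law d μW μL (HH α lam Λ r T x t n u v)
        ≤ law d μW μL (EE α lam Λ r x t n u ∩ F) := measure_mono hsub
      _ = law d μW μL (EE α lam Λ r x t n u) * law d μW μL F := hind
      _ ≤ _ := by
          refine mul_le_mul' le_rfl ?_
          have e := Measure.infinitePi_map_eval_prod (P := marg (d := d) μW μL)
            (i := Sum.inl v) (j := Sum.inr (Sum.inl s(u, v))) (by simp)
          have e2 : law d μW μL F = (μW.prod ((volume : Measure ℝ).restrict (Set.Icc 0 1))) B := by
            have h1 : marg (d := d) μW μL (Sum.inr (Sum.inl s(u, v))) =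
              (volume : Measure ℝ).restrict (Set.Icc 0 1) := rfl
            have h2 : marg (d := d) μW μL (Sum.inl v) = μW := rfl
            rw [h1, h2] at e
            rw [← e, Measure.map_apply (by fun_prop) hB]
            rfl
          rw [e2, Measure.prod_apply hB]
          have e3 : ∀ w : ℝ, (volume : Measure ℝ).restrict (Set.Icc 0 1) (Prod.mk w ⁻¹' B) ≤
              ENNReal.ofReal (a ^ κ) * ENNReal.ofReal (w ^ κ) := by
            intro w
            by_cases hw : 1 ≤ w
            · have : Prod.mk w ⁻¹' B = Set.Iio (a * w) := by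
                ext m
                simp [B, hw]
              rw [this]
              refine (unif_le hκ0 hκ1 (by positivity)).trans ?_
              rw [Real.mul_rpow ha (by linarith), ENNReal.ofReal_mul (by positivity)]
            · have : Prod.mk w ⁻¹' B = ∅ := by
                ext m
                simp [B, hw]
              rw [this, measure_empty]
              exact zero_le
          refine (lintegral_mono e3).trans ?_
          rw [lintegral_const_mul' _ _ ENNReal.ofReal_ne_top]
          have e4 : a ^ κ = (lam * T) ^ κ * nrm (u - v) ^ (-(α * κ)) := by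
            simp only [a]
            rw [div_eq_mul_one_div, Real.mul_rpow (by positivity) (by positivity), hpow]
          have e5 : (lam * T) ^ κ ≤ (lam * T ^ 2) ^ κ := by
            apply Real.rpow_le_rpow (by positivity) _ hκ0.le
            have : T ≤ T ^ 2 := by nlinarith
            gcongr
          rw [e4, ENNReal.ofReal_mul (by positivity)]
          calc ENNReal.ofReal ((lam * T) ^ κ) * ENNReal.ofReal (nrm (u - v) ^ (-(α * κ))) *
                ∫⁻ w, ENNReal.ofReal (w ^ κ) ∂μW
              ≤ ENNReal.ofReal ((lam * T ^ 2) ^ κ) * ENNReal.ofReal (nrm (u - v) ^ (-(α * κ))) *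
                mom μW κ := by
                unfold mom
                gcongr
            _ = _ := by ring

end Pool.Agent.W823.SFD
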