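import Pool.Agent.W823.SFD.EscapeProb

set_option autoImplicit false

namespace Pool.Agent.W823.SFD

open MeasureTheory ProbabilityTheory Pool.Agent.W823.SFP

/-- The assumptions used in the proof. -/
structure HypG (d : ℕ) (α lam β : ℝ) (μW μL : Measure ℝ) : Prop where
  hd : 1 ≤ d
  hα : (d : ℝ) < α
  hlam : 0 < lam
  hβ : 0 < β
  hγ1 : (d : ℝ) < α * β
  hγ2 : α * β < 2 * d
  probW : IsProbabilityMeasure μW
  probL : IsProbabilityMeasure μL
  one : μW (Set.Ici 1) = 1
  lo : ∀ η : ℝ, 0 < η → ∀ᶠ T : ℝ in Filter.atTop,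
    ENNReal.ofReal (T ^ (-(β + η))) ≤ μW (Set.Ici T)
  mo : ∀ κ : ℝ, 0 < κ → κ < β → mom μW κ ≠ ⊤
  posL : ∀ s : ℝ, 0 < s → 0 < μL (Set.Iic s)

variable {d : ℕ} {α lam β : ℝ} {μW μL : Measure ℝ}

/-- Lower bound of the probability of an edge. -/
noncomputable def p1 (d : ℕ) (α lam : ℝ) : ℝ := 1 - Real.exp (-(lam / (2 * d : ℝ) ^ α))

theorem p1_le (d : ℕ) (α lam : ℝ) : p1 d α lam ≤ 1 := by
  unfold p1; linarith [Real.exp_pos (-(lam / (2 * d : ℝ) ^ α))]

theorem HypG.dpos (h : HypG d α lam β μW μL) : (1 : ℝ) ≤ d := by exact_mod_cast h.hd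

theorem HypG.apos (h : HypG d α lam β μW μL) : 0 < α := by
  have := h.hα; have := h.dpos; linarith

theorem HypG.p1_pos (h : HypG d α lam β μW μL) : 0 < p1 d α lam := by
  unfold p1
  have h1 : 0 < lam / (2 * d : ℝ) ^ α := by
    have := h.dpos
    have := h.hlam
    positivity
  have : Real.exp (-(lam / (2 * d : ℝ) ^ α)) < 1 := by
    rw [Real.exp_lt_one_iff]; linarith
  linarith

/-- The side of the boxes at the scale `S`. -/
noncomputable def sd (α s S : ℝ) : ℕ := ⌊S ^ ((1 + s) / α)⌋₊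

def SB (d : ℕ) (α lam s δ S : ℝ) (u : Site d) : Set (Conf d) :=
  {ω | ∀ y : Fin d → Fin (sd α s S), ¬ (S ^ s ≤ wt ω (bsite u y) ∧
    mark ω u (bsite u y) < p1 d α lam ∧ cost ω u (bsite u y) ≤ δ)}

def LB (d : ℕ) (α lam s δ S : ℝ) (u v : Site d) : Set (Conf d) :=
  {ω | ∀ y : Fin d → Fin (sd α s S), bsite u y ≠ v → ¬ (S ^ s ≤ wt ω (bsite u y) ∧
    mark ω u (bsite u y) < p1 d α lam ∧ mark ω v (bsite u y) < p1 d α lam ∧
    cost ω u (bsite u y) ≤ δ ∧ cost ω v (bsite u y) ≤ δ)}

theorem joined_of (h : HypG d α lam β μW μL) {s S : ℝ} (hS : 1 ≤ S) {ω : Conf d}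
    {u z : Site d} (hne : z ≠ u) (hu : S ≤ wt ω u) (hz : S ^ s ≤ wt ω z)
    (hm : mark ω u z < p1 d α lam) (hn : nrm (u - z) ≤ 2 * d * S ^ ((1 + s) / α)) :
    Joined α lam ω u z := by
  have h1 : 1 ≤ nrm (u - z) := one_le_nrm (sub_ne_zero.2 hne.symm)
  rcases h1.eq_or_lt with h1 | h1
  · exact Or.inl h1.symm
  · refine Or.inr ⟨h1, lt_of_lt_of_le hm ?_⟩
    unfold p1
    apply sub_le_sub_left
    apply Real.exp_le_exp.2
    apply neg_le_neg
    have hα := h.apos
    have hd := h.dpos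
    have hlam := h.hlam
    have hS0 : 0 < S := by linarith
    have hpos : 0 < nrm (u - z) ^ α := Real.rpow_pos_of_pos (by linarith) _
    have hn2 : nrm (u - z) ^ α ≤ (2 * d : ℝ) ^ α * (S * S ^ s) := by
      calc nrm (u - z) ^ α ≤ (2 * d * S ^ ((1 + s) / α)) ^ α :=
            Real.rpow_le_rpow (nrm_nonneg _) hn hα.le
        _ = (2 * d : ℝ) ^ α * (S * S ^ s) := by
            rw [Real.mul_rpow (by positivity) (by positivity), ← Real.rpow_mul hS0.le,
              div_mul_cancel₀ _ hα.ne', Real.rpow_add hS0, Real.rpow_one]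
    have hw : S * S ^ s ≤ wt ω u * wt ω z := mul_le_mul hu hz (by positivity) (by linarith)
    rw [div_le_div_iff₀ (by positivity) hpos]
    calc lam * nrm (u - z) ^ α ≤ lam * ((2 * d : ℝ) ^ α * (S * S ^ s)) := by gcongr
      _ ≤ lam * ((2 * d : ℝ) ^ α * (wt ω u * wt ω z)) := by gcongr
      _ = lam * wt ω u * wt ω z * (2 * d : ℝ) ^ α := by ring

theorem sd_le {s S : ℝ} (hS : 0 ≤ S) : (sd α s S : ℝ) ≤ S ^ ((1 + s) / α) :=
  Nat.floor_le (by positivity)

theorem nrm_sub_bsite (h : HypG d α lam β μW μL) {s S : ℝ} (hS : 0 ≤ S) (u : Site d)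
    (y : Fin d → Fin (sd α s S)) : nrm (u - bsite u y) ≤ d * S ^ ((1 + s) / α) := by
  rw [nrm_sub_comm]
  exact (nrm_bsite_le u y).trans (mul_le_mul_of_nonneg_left (sd_le hS) (Nat.cast_nonneg d))

/-- A good site has a good neighbour of the next scale. -/
theorem step_of_not_SB (h : HypG d α lam β μW μL) {s δ S : ℝ} (hS : 1 ≤ S) {ω : Conf d}
    {u : Site d} (hb : ω ∉ SB d α lam s δ S u) (hu : S ≤ wt ω u) :
    ∃ z : Site d, S ^ s ≤ wt ω z ∧ nrm (u - z) ≤ d * S ^ ((1 + s) / α) ∧ cost ω u z ≤ δ ∧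
      Joined α lam ω u z := by
  unfold SB at hb
  simp only [Set.mem_ofPred_eq, not_forall, not_not] at hb
  obtain ⟨y, hy1, hy2, hy3⟩ := hb
  have hn := nrm_sub_bsite h (by linarith : (0 : ℝ) ≤ S) u y
  have hd := h.dpos
  have hp : 0 ≤ (d : ℝ) * S ^ ((1 + s) / α) := by positivity
  exact ⟨bsite u y, hy1, hn, hy3, joined_of h hS (bsite_ne h.hd u y) hu hy1 hy2 (by linarith)⟩

/-- Two good sites which are close have a common neighbour. -/
theorem link_of_not_LB (h : HypG d α lam β μW μL) {s δ S : ℝ} (hS : 1 ≤ S) {ω : Conf d}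
    {u v : Site d} (hb : ω ∉ LB d α lam s δ S u v) (hu : S ≤ wt ω u) (hv : S ≤ wt ω v)
    (huv : nrm (u - v) ≤ S ^ ((1 + s) / α)) :
    ∃ z : Site d, cost ω u z ≤ δ ∧ cost ω v z ≤ δ ∧ Joined α lam ω u z ∧ Joined α lam ω v z := by
  unfold LB at hb
  simp only [Set.mem_ofPred_eq, not_forall, not_not] at hb
  obtain ⟨y, hy0, hy1, hy2, hy3, hy4, hy5⟩ := hb
  have hn := nrm_sub_bsite h (by linarith : (0 : ℝ) ≤ S) u y
  have hd := h.dpos
  have hp : 0 ≤ (d : ℝ) * S ^ ((1 + s) / α) := by positivity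
  have hp1 : S ^ ((1 + s) / α) ≤ d * S ^ ((1 + s) / α) := by
    have : 0 ≤ S ^ ((1 + s) / α) := by positivity
    nlinarith
  have hn2 : nrm (v - bsite u y) ≤ 2 * d * S ^ ((1 + s) / α) := by
    have h1 := nrm_add_le (v - u) (u - bsite u y)
    rw [sub_add_sub_cancel, nrm_sub_comm v u] at h1
    linarith
  exact ⟨bsite u y, hy4, hy5, joined_of h hS (bsite_ne h.hd u y) hu hy1 hy2 (by linarith),
    joined_of h hS hy0 hv hy1 hy3 hn2⟩

theorem exp_prod_bound {ι : Type*} [Fintype ι] (q : ℝ) (hq0 : 0 ≤ q) :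
    ∏ _i : ι, (1 - ENNReal.ofReal q) ≤ ENNReal.ofReal (Real.exp (-(Fintype.card ι * q))) := by
  have hle : 1 - ENNReal.ofReal q ≤ ENNReal.ofReal (Real.exp (-q)) := by
    rw [← ENNReal.ofReal_one, ← ENNReal.ofReal_sub _ hq0]
    apply ENNReal.ofReal_le_ofReal
    linarith [Real.add_one_le_exp (-q)]
  calc ∏ _i : ι, (1 - ENNReal.ofReal q) ≤ ∏ _i : ι, ENNReal.ofReal (Real.exp (-q)) :=
        Finset.prod_le_prod' fun _ _ => hle
    _ = _ := by
        rw [Finset.prod_const, Finset.card_univ, ← ENNReal.ofReal_pow (Real.exp_pos _).le,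
          ← Real.exp_nat_mul]
        congr 2; ring

theorem SB_prob (h : HypG d α lam β μW μL) {s δ S : ℝ} (u : Site d) {qW qL : ℝ} (hqW : 0 ≤ qW)
    (hqL : 0 ≤ qL) (hW : ENNReal.ofReal qW ≤ μW (Set.Ici (S ^ s)))
    (hL : ENNReal.ofReal qL ≤ μL (Set.Iic δ)) :
    law d μW μL (SB d α lam s δ S u) ≤
      ENNReal.ofReal (Real.exp (-((sd α s S : ℝ) ^ d * (qW * p1 d α lam * qL)))) := by
  have := prob_marg (d := d) h.probW h.probL
  have hp1 := h.p1_pos
  let g : (Fin d → Fin (sd α s S)) × Fin 3 → Idx d := fun p =>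
    match p.2 with
    | 0 => Sum.inl (bsite u p.1)
    | 1 => Sum.inr (Sum.inl s(u, bsite u p.1))
    | 2 => Sum.inr (Sum.inr s(u, bsite u p.1))
  have hs : ∀ y y' : Fin d → Fin (sd α s S), s(u, bsite u y) = s(u, bsite u y') → y = y' := by
    intro y y' hs
    rw [Sym2.eq_iff] at hs
    rcases hs with ⟨-, h2⟩ | ⟨h1, -⟩
    · exact bsite_injective u h2
    · exact absurd h1.symm (bsite_ne h.hd u y')
  have hg : Function.Injective g := by
    rintro ⟨y, k⟩ ⟨y', k'⟩ hyy
    fin_cases k <;> fin_cases k'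
    · have h' : y = y' := bsite_injective u (Sum.inl_injective hyy)
      rw [h']
    · exact absurd hyy (by simp [g])
    · exact absurd hyy (by simp [g])
    · exact absurd hyy (by simp [g])
    · have := hs y y' (Sum.inl_injective (Sum.inr_injective hyy)); rw [this]
    · exact absurd hyy (by simp [g])
    · exact absurd hyy (by simp [g])
    · exact absurd hyy (by simp [g])
    · have := hs y y' (Sum.inr_injective (Sum.inr_injective hyy)); rw [this]
  let T : (Fin d → Fin (sd α s S)) → Fin 3 → Set ℝ := fun _ k =>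
    match k with
    | 0 => Set.Ici (S ^ s)
    | 1 => Set.Iio (p1 d α lam)
    | 2 => Set.Iic δ
  have hT : ∀ i k, MeasurableSet (T i k) := by
    intro i k
    fin_cases k <;> simp [T, measurableSet_Ici, measurableSet_Iio, measurableSet_Iic]
  have hset : SB d α lam s δ S u = {ω | ∀ i, ¬ ∀ k, ω (g (i, k)) ∈ T i k} := by
    ext ω
    simp only [SB, Set.mem_ofPred_eq]
    apply forall_congr'
    intro y
    apply not_congr
    rw [Fin.forall_fin_succ, Fin.forall_fin_succ, Fin.forall_fin_one]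
    simp [g, T, wt, mark, cost]
  rw [law, hset, block_prob (marg μW μL) g hg T hT]
  have hfac : ∀ y : Fin d → Fin (sd α s S), 1 - ∏ k, marg μW μL (g (y, k)) (T y k) ≤
      1 - ENNReal.ofReal (qW * p1 d α lam * qL) := by
    intro y
    rw [Fin.prod_univ_three]
    have e0 : ENNReal.ofReal qW ≤ marg μW μL (g (y, 0)) (T y 0) := hW
    have e1 : marg μW μL (g (y, 1)) (T y 1) = ENNReal.ofReal (p1 d α lam) :=
      unif_Iio _ (p1_le d α lam)
    have e2 : ENNReal.ofReal qL ≤ marg μW μL (g (y, 2)) (T y 2) := hL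
    apply tsub_le_tsub_left
    rw [ENNReal.ofReal_mul (by positivity), ENNReal.ofReal_mul hqW, e1]
    gcongr
  refine (Finset.prod_le_prod' fun y _ => hfac y).trans ?_
  refine (exp_prod_bound _ (by positivity)).trans (le_of_eq ?_)
  rw [Fintype.card_fun, Fintype.card_fin, Fintype.card_fin]
  push_cast
  rfl

theorem LB_prob (h : HypG d α lam β μW μL) {s δ S : ℝ} {u v : Site d} (huv : u ≠ v) {qW qL : ℝ}
    (hqW : 0 ≤ qW) (hqL : 0 ≤ qL) (hW : ENNReal.ofReal qW ≤ μW (Set.Ici (S ^ s)))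
    (hL : ENNReal.ofReal qL ≤ μL (Set.Iic δ)) :
    law d μW μL (LB d α lam s δ S u v) ≤
      ENNReal.ofReal (Real.exp (-(((sd α s S : ℝ) ^ d - 1) *
        (qW * p1 d α lam * p1 d α lam * qL * qL)))) := by
  classical
  have := prob_marg (d := d) h.probW h.probL
  have hp1 := h.p1_pos
  let ι := {y : Fin d → Fin (sd α s S) // bsite u y ≠ v}
  let g : ι × Fin 5 → Idx d := fun p =>
    match p.2 with
    | 0 => Sum.inl (bsite u p.1.1)
    | 1 => Sum.inr (Sum.inl s(u, bsite u p.1.1))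
    | 2 => Sum.inr (Sum.inl s(v, bsite u p.1.1))
    | 3 => Sum.inr (Sum.inr s(u, bsite u p.1.1))
    | 4 => Sum.inr (Sum.inr s(v, bsite u p.1.1))
  have hs1 : ∀ y y' : ι, s(u, bsite u y.1) = s(u, bsite u y'.1) → y = y' := by
    intro y y' hs
    rw [Sym2.eq_iff] at hs
    rcases hs with ⟨-, h2⟩ | ⟨h1, -⟩
    · exact Subtype.ext (bsite_injective u h2)
    · exact absurd h1.symm (bsite_ne h.hd u y'.1)
  have hs2 : ∀ y y' : ι, s(v, bsite u y.1) = s(v, bsite u y'.1) → y = y' := by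
    intro y y' hs
    rw [Sym2.eq_iff] at hs
    rcases hs with ⟨-, h2⟩ | ⟨h1, -⟩
    · exact Subtype.ext (bsite_injective u h2)
    · exact absurd h1.symm y'.2
  have hs3 : ∀ y y' : ι, s(u, bsite u y.1) ≠ s(v, bsite u y'.1) := by
    intro y y' hs
    rw [Sym2.eq_iff] at hs
    rcases hs with ⟨h1, -⟩ | ⟨h1, -⟩
    · exact huv h1
    · exact absurd h1.symm (bsite_ne h.hd u y'.1)
  have hg : Function.Injective g := by
    rintro ⟨y, k⟩ ⟨y', k'⟩ hyy
    fin_cases k <;> fin_cases k'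
    · have h' : y = y' := Subtype.ext (bsite_injective u (Sum.inl_injective hyy))
      rw [h']
    · exact absurd hyy (by simp [g])
    · exact absurd hyy (by simp [g])
    · exact absurd hyy (by simp [g])
    · exact absurd hyy (by simp [g])
    · exact absurd hyy (by simp [g])
    · have := hs1 y y' (Sum.inl_injective (Sum.inr_injective hyy)); rw [this]
    · exact absurd (Sum.inl_injective (Sum.inr_injective hyy)) (hs3 y y')
    · exact absurd hyy (by simp [g])
    · exact absurd hyy (by simp [g])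
    · exact absurd hyy (by simp [g])
    · exact absurd (Sum.inl_injective (Sum.inr_injective hyy)).symm (hs3 y' y)
    · have := hs2 y y' (Sum.inl_injective (Sum.inr_injective hyy)); rw [this]
    · exact absurd hyy (by simp [g])
    · exact absurd hyy (by simp [g])
    · exact absurd hyy (by simp [g])
    · exact absurd hyy (by simp [g])
    · exact absurd hyy (by simp [g])
    · have := hs1 y y' (Sum.inr_injective (Sum.inr_injective hyy)); rw [this]
    · exact absurd (Sum.inr_injective (Sum.inr_injective hyy)) (hs3 y y')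
    · exact absurd hyy (by simp [g])
    · exact absurd hyy (by simp [g])
    · exact absurd hyy (by simp [g])
    · exact absurd (Sum.inr_injective (Sum.inr_injective hyy)).symm (hs3 y' y)
    · have := hs2 y y' (Sum.inr_injective (Sum.inr_injective hyy)); rw [this]
  let T : ι → Fin 5 → Set ℝ := fun _ k =>
    match k with
    | 0 => Set.Ici (S ^ s)
    | 1 => Set.Iio (p1 d α lam)
    | 2 => Set.Iio (p1 d α lam)
    | 3 => Set.Iic δ
    | 4 => Set.Iic δ
  have hT : ∀ i k, MeasurableSet (T i k) := by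
    intro i k
    fin_cases k <;> simp [T, measurableSet_Ici, measurableSet_Iio, measurableSet_Iic]
  have hset : LB d α lam s δ S u v = {ω | ∀ i, ¬ ∀ k, ω (g (i, k)) ∈ T i k} := by
    ext ω
    simp only [LB, Set.mem_ofPred_eq, ι, Subtype.forall]
    apply forall_congr'
    intro y
    apply forall_congr'
    intro hy
    apply not_congr
    rw [Fin.forall_fin_succ, Fin.forall_fin_succ, Fin.forall_fin_succ, Fin.forall_fin_succ,
      Fin.forall_fin_one]
    simp [g, T, wt, mark, cost]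
  rw [law, hset, block_prob (marg μW μL) g hg T hT]
  have hfac : ∀ y : ι, 1 - ∏ k, marg μW μL (g (y, k)) (T y k) ≤
      1 - ENNReal.ofReal (qW * p1 d α lam * p1 d α lam * qL * qL) := by
    intro y
    rw [Fin.prod_univ_five]
    have e0 : ENNReal.ofReal qW ≤ marg μW μL (g (y, 0)) (T y 0) := hW
    have e1 : marg μW μL (g (y, 1)) (T y 1) = ENNReal.ofReal (p1 d α lam) :=
      unif_Iio _ (p1_le d α lam)
    have e2 : marg μW μL (g (y, 2)) (T y 2) = ENNReal.ofReal (p1 d α lam) :=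
      unif_Iio _ (p1_le d α lam)
    have e3 : ENNReal.ofReal qL ≤ marg μW μL (g (y, 3)) (T y 3) := hL
    have e4 : ENNReal.ofReal qL ≤ marg μW μL (g (y, 4)) (T y 4) := hL
    apply tsub_le_tsub_left
    rw [ENNReal.ofReal_mul (by positivity), ENNReal.ofReal_mul (by positivity),
      ENNReal.ofReal_mul (by positivity), ENNReal.ofReal_mul hqW, e1, e2]
    gcongr
  refine (Finset.prod_le_prod' fun y _ => hfac y).trans ?_
  refine (exp_prod_bound _ (by positivity)).trans ?_
  apply ENNReal.ofReal_le_ofReal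
  apply Real.exp_le_exp.2
  apply neg_le_neg
  apply mul_le_mul_of_nonneg_right _ (by positivity)
  -- at most one site of the box is excluded
  have hcard : (sd α s S) ^ d ≤ Fintype.card ι + 1 := by
    have h1 : Fintype.card (Fin d → Fin (sd α s S)) = (sd α s S) ^ d := by
      rw [Fintype.card_fun, Fintype.card_fin, Fintype.card_fin]
    have h2 : Fintype.card {y : Fin d → Fin (sd α s S) // ¬ (bsite u y ≠ v)} ≤ 1 := by
      rw [Fintype.card_le_one_iff]
      rintro ⟨y, hy⟩ ⟨y', hy'⟩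
      simp only [ne_eq, not_not] at hy hy'
      exact Subtype.ext (bsite_injective u (hy.trans hy'.symm))
    have h3 := Fintype.card_subtype_compl (fun y : Fin d → Fin (sd α s S) => bsite u y ≠ v)
    have h4 : Fintype.card ι ≤ Fintype.card (Fin d → Fin (sd α s S)) :=
      Fintype.card_subtype_le _
    rw [h1] at h3 h4
    simp only [ι] at h4 ⊢
    omega
  have : ((sd α s S : ℝ)) ^ d ≤ Fintype.card ι + 1 := by exact_mod_cast hcard
  linarith

end Pool.Agent.W823.SFD
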