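import Pool.Agent.W823.SFD.Final

set_option autoImplicit false

namespace Pool.Agent.W823.SFD

open MeasureTheory ProbabilityTheory Filter Topology Pool.Agent.W823.SFP

variable {μW μL : Measure ℝ} {β : ℝ}

/-- The tail function. -/
noncomputable def GG (μW : Measure ℝ) (t : ℝ) : ℝ := (μW (Set.Ioi t)).toReal

theorem GG_anti [IsProbabilityMeasure μW] {s t : ℝ} (h : s ≤ t) : GG μW t ≤ GG μW s :=
  ENNReal.toReal_mono (measure_ne_top _ _) (measure_mono (Set.Ioi_subset_Ioi h))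

theorem GG_le_one [IsProbabilityMeasure μW] (t : ℝ) : GG μW t ≤ 1 :=
  ENNReal.toReal_le_of_le_ofReal zero_le_one (by rw [ENNReal.ofReal_one]; exact prob_le_one)

theorem GG_nonneg (t : ℝ) : 0 ≤ GG μW t := ENNReal.toReal_nonneg

/-- The ratios along a dyadic sequence. -/
theorem ratio_tendsto (h : RegVar μW β) :
    Tendsto (fun t => GG μW (2 * t) / GG μW t) atTop (𝓝 ((2 : ℝ) ^ (-β))) := by
  obtain ⟨l, h1, h2, h3⟩ := h
  have h4 := (h3 2 two_pos).mul_const ((2 : ℝ) ^ (-β))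
  rw [one_mul] at h4
  refine h4.congr' ?_
  filter_upwards [h2, eventually_gt_atTop (0 : ℝ)] with t ht ht0
  unfold GG
  rw [h1 (2 * t) (by linarith), h1 t ht0, Real.mul_rpow (by norm_num) ht0.le]
  have : 0 < t ^ (-β) := by positivity
  field_simp

theorem ev_pos (h : RegVar μW β) : ∀ᶠ t in atTop, 0 < GG μW t := by
  obtain ⟨l, h1, h2, h3⟩ := h
  filter_upwards [h2, eventually_gt_atTop (0 : ℝ)] with t ht ht0
  unfold GG
  rw [h1 t ht0]
  positivity

theorem ev_lower (h : RegVar μW β) {η : ℝ} (hη : 0 < η) :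
    ∃ t0 : ℝ, 1 ≤ t0 ∧ 0 < GG μW t0 ∧ ∀ n : ℕ,
      GG μW t0 * ((2 : ℝ) ^ (-(β + η))) ^ n ≤ GG μW (2 ^ n * t0) := by
  have h1 := ratio_tendsto h
  have hlt : (2 : ℝ) ^ (-(β + η)) < (2 : ℝ) ^ (-β) :=
    Real.rpow_lt_rpow_of_exponent_lt (by norm_num) (by linarith)
  have h2 := h1.eventually (lt_mem_nhds hlt)
  obtain ⟨t0, ht0⟩ := eventually_atTop.1 ((h2.and (ev_pos h)).and (eventually_ge_atTop (1 : ℝ)))
  refine ⟨t0, (ht0 t0 le_rfl).2, (ht0 t0 le_rfl).1.2, fun n => ?_⟩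
  have h10 : 1 ≤ t0 := (ht0 t0 le_rfl).2
  induction n with
  | zero => simp
  | succ n ih =>
    have hge : t0 ≤ 2 ^ n * t0 := by
      have : (1 : ℝ) ≤ 2 ^ n := one_le_pow₀ (by norm_num)
      nlinarith
    obtain ⟨⟨h3, h4⟩, -⟩ := ht0 _ hge
    rw [lt_div_iff₀ h4] at h3
    have e1 : (2 : ℝ) ^ (n + 1) * t0 = 2 * (2 ^ n * t0) := by ring
    rw [e1, pow_succ]
    have hp : 0 < (2 : ℝ) ^ (-(β + η)) := by positivity
    nlinarith

theorem ev_upper [IsProbabilityMeasure μW] (h : RegVar μW β) {β' : ℝ} (hη : β' < β) :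
    ∃ t0 : ℝ, 1 ≤ t0 ∧ ∀ n : ℕ, GG μW (2 ^ n * t0) ≤ ((2 : ℝ) ^ (-β')) ^ n := by
  have h1 := ratio_tendsto h
  have hlt : (2 : ℝ) ^ (-β) < (2 : ℝ) ^ (-β') :=
    Real.rpow_lt_rpow_of_exponent_lt (by norm_num) (by linarith)
  have h2 := h1.eventually (gt_mem_nhds hlt)
  obtain ⟨t0, ht0⟩ := eventually_atTop.1 ((h2.and (ev_pos h)).and (eventually_ge_atTop (1 : ℝ)))
  refine ⟨t0, (ht0 t0 le_rfl).2, fun n => ?_⟩
  have h10 : 1 ≤ t0 := (ht0 t0 le_rfl).2
  induction n with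
  | zero => simpa using GG_le_one _
  | succ n ih =>
    have hge : t0 ≤ 2 ^ n * t0 := by
      have : (1 : ℝ) ≤ 2 ^ n := one_le_pow₀ (by norm_num)
      nlinarith
    obtain ⟨⟨h3, h4⟩, -⟩ := ht0 _ hge
    rw [div_lt_iff₀ h4] at h3
    have e1 : (2 : ℝ) ^ (n + 1) * t0 = 2 * (2 ^ n * t0) := by ring
    rw [e1, pow_succ]
    have hp : 0 < (2 : ℝ) ^ (-β') := by positivity
    nlinarith

/-- The lower bound for the tail. -/
theorem lo_of [IsProbabilityMeasure μW] (hβ : 0 < β) (h : RegVar μW β) (η : ℝ) (hη : 0 < η) :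
    ∀ᶠ T : ℝ in atTop, ENNReal.ofReal (T ^ (-(β + η))) ≤ μW (Set.Ici T) := by
  obtain ⟨t0, h1, h2, h3⟩ := ev_lower h (half_pos hη)
  have hlim : Tendsto (fun T : ℝ => T ^ (-(η / 2))) atTop (𝓝 0) :=
    tendsto_rpow_neg_atTop (half_pos hη)
  set c : ℝ := GG μW t0 * (2 : ℝ) ^ (-(β + η / 2)) with hc
  have hc0 : 0 < c := by positivity
  filter_upwards [hlim.eventually (gt_mem_nhds hc0), eventually_ge_atTop t0] with T hT hTt
  have hT0 : 0 < T := by linarith
  have hx : 1 ≤ T / t0 := (one_le_div (by linarith)).2 hTt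
  obtain ⟨n, hn1, hn2⟩ := exists_nat_pow_near hx (show (1 : ℝ) < 2 by norm_num)
  have ht0 : 0 < t0 := by linarith
  rw [le_div_iff₀ ht0] at hn1
  rw [div_lt_iff₀ ht0] at hn2
  have e1 := h3 (n + 1)
  have e2 : GG μW (2 ^ (n + 1) * t0) ≤ GG μW T := GG_anti hn2.le
  have e3 : ((2 : ℝ) ^ (-(β + η / 2))) ^ (n + 1) = (2 : ℝ) ^ (-(β + η / 2)) * ((2 : ℝ) ^ n) ^ (-(β + η / 2)) := by
    rw [pow_succ, mul_comm, ← Real.rpow_natCast, ← Real.rpow_natCast, ← Real.rpow_mul (by norm_num),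
      ← Real.rpow_mul (by norm_num)]
    congr 2
    ring
  have e4 : T ^ (-(β + η / 2)) ≤ ((2 : ℝ) ^ n) ^ (-(β + η / 2)) := by
    apply Real.rpow_le_rpow_of_nonpos (by positivity) _ (by linarith)
    calc (2 : ℝ) ^ n ≤ 2 ^ n * t0 := by nlinarith [show (0 : ℝ) < 2 ^ n by positivity]
      _ ≤ T := hn1
  have e5 : c * T ^ (-(β + η / 2)) ≤ GG μW T := by
    refine le_trans ?_ (e1.trans e2)
    rw [e3, hc, mul_assoc]
    gcongr
  have e6 : T ^ (-(β + η)) ≤ GG μW T := by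
    refine le_trans ?_ e5
    have : T ^ (-(β + η)) = T ^ (-(η / 2)) * T ^ (-(β + η / 2)) := by
      rw [← Real.rpow_add hT0]; congr 1; ring
    rw [this]
    gcongr
  calc ENNReal.ofReal (T ^ (-(β + η))) ≤ ENNReal.ofReal (GG μW T) := ENNReal.ofReal_le_ofReal e6
    _ = μW (Set.Ioi T) := ENNReal.ofReal_toReal (measure_ne_top _ _)
    _ ≤ μW (Set.Ici T) := measure_mono Set.Ioi_subset_Ici_self

/-- The moments below `β` are finite. -/
theorem mo_of [IsProbabilityMeasure μW] (hone : μW (Set.Ici 1) = 1) (h : RegVar μW β) (κ : ℝ)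
    (hκ0 : 0 < κ) (hκ : κ < β) : mom μW κ ≠ ⊤ := by
  obtain ⟨t0, h1, h2⟩ := ev_upper h (show (κ + β) / 2 < β by linarith)
  set β' := (κ + β) / 2 with hβ'
  have hκβ : κ < β' := by linarith
  have ht0 : 0 < t0 := by linarith
  have hae : ∀ᵐ w ∂μW, (1 : ℝ) ≤ w := by
    rw [ae_iff]
    have : {w : ℝ | ¬ 1 ≤ w} = (Set.Ici 1)ᶜ := by ext w; simp
    rw [this]
    exact (prob_compl_eq_zero_iff measurableSet_Ici).2 hone
  have hpt : ∀ᵐ w ∂μW, ENNReal.ofReal (w ^ κ) ≤ ENNReal.ofReal ((2 * t0) ^ κ) +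
      ∑' n : ℕ, (Set.Ioi (2 ^ n * t0)).indicator
        (fun _ => ENNReal.ofReal ((2 ^ (n + 2) * t0) ^ κ)) w := by
    filter_upwards [hae] with w hw
    by_cases hc : w ≤ 2 * t0
    · refine le_trans ?_ le_self_add
      apply ENNReal.ofReal_le_ofReal
      gcongr
    · push Not at hc
      have hx : 1 ≤ w / (2 * t0) := (one_le_div (by linarith)).2 hc.le
      obtain ⟨n, hn1, hn2⟩ := exists_nat_pow_near hx (show (1 : ℝ) < 2 by norm_num)
      rw [le_div_iff₀ (by linarith)] at hn1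
      rw [div_lt_iff₀ (by linarith)] at hn2
      refine le_trans ?_ le_add_self
      refine le_trans ?_ (ENNReal.le_tsum n)
      have hmem : w ∈ Set.Ioi (2 ^ n * t0) := by
        rw [Set.mem_Ioi]
        have : (0 : ℝ) < 2 ^ n * t0 := by positivity
        linarith
      rw [Set.indicator_of_mem hmem]
      apply ENNReal.ofReal_le_ofReal
      have e1 : w ≤ 2 ^ (n + 2) * t0 := by
        calc w ≤ 2 ^ (n + 1) * (2 * t0) := hn2.le
          _ = _ := by ring
      gcongr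
  have hsum : ∑' n : ℕ, ENNReal.ofReal ((4 * t0) ^ κ * ((2 : ℝ) ^ (κ - β')) ^ n) ≠ ⊤ := by
    apply Summable.tsum_ofReal_ne_top
    apply Summable.mul_left
    apply summable_geometric_of_lt_one (by positivity)
    exact Real.rpow_lt_one_of_one_lt_of_neg (by norm_num) (by linarith)
  have hle : mom μW κ ≤ ENNReal.ofReal ((2 * t0) ^ κ) +
      ∑' n : ℕ, ENNReal.ofReal ((4 * t0) ^ κ * ((2 : ℝ) ^ (κ - β')) ^ n) := by
    unfold mom
    refine (lintegral_mono_ae hpt).trans ?_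
    rw [lintegral_add_left measurable_const, lintegral_const, measure_univ, mul_one,
      lintegral_tsum fun n => (measurable_const.indicator measurableSet_Ioi).aemeasurable]
    gcongr with n
    rw [lintegral_indicator_const measurableSet_Ioi]
    have e1 : μW (Set.Ioi (2 ^ n * t0)) ≤ ENNReal.ofReal (((2 : ℝ) ^ (-β')) ^ n) := by
      rw [← ENNReal.ofReal_toReal (measure_ne_top μW (Set.Ioi (2 ^ n * t0)))]
      exact ENNReal.ofReal_le_ofReal (h2 n)
    refine (mul_le_mul' le_rfl e1).trans ?_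
    rw [← ENNReal.ofReal_mul (by positivity)]
    apply ENNReal.ofReal_le_ofReal
    apply le_of_eq
    have e2 : (2 : ℝ) ^ (n + 2) * t0 = 2 ^ n * (4 * t0) := by ring
    rw [e2, Real.mul_rpow (by positivity) (by positivity)]
    have e3 : ((2 : ℝ) ^ (κ - β')) ^ n = ((2 : ℝ) ^ n) ^ κ * ((2 : ℝ) ^ (-β')) ^ n := by
      rw [← Real.rpow_natCast, ← Real.rpow_natCast, ← Real.rpow_natCast, ← Real.rpow_mul (by norm_num),
        ← Real.rpow_mul (by norm_num), ← Real.rpow_mul (by norm_num), ← Real.rpow_add (by norm_num)]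
      congr 1
      ring
    rw [e3]
    ring
  exact ne_top_of_le_ne_top (ENNReal.add_ne_top.2 ⟨ENNReal.ofReal_ne_top, hsum⟩) hle

/-- If `I (L) < ∞` then small edge-weights have positive probability. -/
theorem posL_of [IsProbabilityMeasure μL] (hI : IL μL < ⊤) (s : ℝ) (hs : 0 < s) :
    0 < μL (Set.Iic s) := by
  by_contra hcon
  have h0 : μL (Set.Iic s) = 0 := le_antisymm (not_lt.1 hcon) zero_le
  have hq : ∀ u : ℝ, 0 < u → u < 1 → s ≤ quantile μL u := by
    intro u hu0 hu1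
    unfold quantile
    apply le_csInf
    · have h1 := tendsto_measure_Iic_atTop μL
      rw [measure_univ] at h1
      have h2 : Tendsto (fun t => (μL (Set.Iic t)).toReal) atTop (𝓝 1) := by
        have := (ENNReal.tendsto_toReal (a := 1) ENNReal.one_ne_top).comp h1
        rw [ENNReal.toReal_one] at this
        exact this
      obtain ⟨t, ht⟩ := (h2.eventually (lt_mem_nhds hu1)).exists
      exact ⟨t, ht.le⟩
    · intro t ht
      by_contra hlt
      push Not at hlt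
      have h3 : μL (Set.Iic t) = 0 := measure_mono_null (Set.Iic_subset_Iic.2 hlt.le) h0
      rw [Set.mem_ofPred_eq, h3, ENNReal.toReal_zero] at ht
      linarith
  have h4 : ∫⁻ _y in Set.Ioi (0 : ℝ), ENNReal.ofReal s ≤ IL μL := by
    unfold IL
    refine lintegral_mono_ae ?_
    filter_upwards [ae_restrict_mem measurableSet_Ioi] with y hy
    apply ENNReal.ofReal_le_ofReal
    apply hq _ (Real.exp_pos _)
    rw [Real.exp_lt_one_iff]
    linarith [Real.exp_pos y]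
  rw [setLIntegral_const, Real.volume_Ioi, ENNReal.mul_top (ENNReal.ofReal_pos.2 hs).ne'] at h4
  exact absurd hI (not_lt.2 h4)

end Pool.Agent.W823.SFD
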